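import Mathlib
import Pool.Graph.R_pool_sql_team_39128cda.Lib.helper9_.Birkhoff

set_option autoImplicit false

open MeasureTheory Filter Topology
open scoped ENNReal

namespace H949.FK

/-- The pointwise ergodic theorem for a nonnegative function with finite integral.

PROOF. `f` is finite almost everywhere (at all points `S^[j] ω`, by invariance), put `g = (f ·).toReal`, integrable.
Library: `Pool.Agent.Lib.helper9.Birkhoff.birkhoff` gives the limit of the Birkhoff averages of `g`, namely the conditional
expectation w.r.t. the invariant σ-algebra, which is almost everywhere constant by ergodicity and so equal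
to `∫ g` (for this step see `Pool/Agent/H953/Spd/Erg.lean` on main, theorem `erg`, last 20 lines). Translate back with
`ENNReal.ofReal`. -/
theorem bir {Ω : Type*} [MeasurableSpace Ω] {P : Measure Ω} [IsProbabilityMeasure P] {S : Ω → Ω}
    (hS : Ergodic S P) {f : Ω → ℝ≥0∞} (hf : Measurable f) (hi : ∫⁻ ω, f ω ∂P ≠ ∞) :
    ∀ᵐ ω ∂P, Tendsto (fun n : ℕ => (∑ j ∈ Finset.range n, f (S^[j] ω)) / n) atTop
      (𝓝 (∫⁻ ω, f ω ∂P)) := by
  have hg : Integrable (fun ω => (f ω).toReal) P := integrable_toReal_of_lintegral_ne_top hf.aemeasurable hi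
  have hb := Pool.Agent.Lib.helper9.Birkhoff.birkhoff hS.toMeasurePreserving hg
  have hs : Measurable[MeasurableSpace.invariants S]
      (P[(fun ω => (f ω).toReal) | MeasurableSpace.invariants S]) :=
    stronglyMeasurable_condExp.measurable
  have hinv := MeasurableSpace.comp_eq_of_measurable_invariants hs
  have hle := MeasurableSpace.invariants_le S
  obtain ⟨c, hc⟩ := hS.toPreErgodic.ae_eq_const_of_ae_eq_comp (hs.mono hle le_rfl) hinv
  have hc1 : c = ∫ ω, (f ω).toReal ∂P := by
    rw [← integral_condExp hle, integral_congr_ae hc]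
    simp
  have hfin : ∀ᵐ ω ∂P, f ω < ∞ := ae_lt_top hf hi
  have hfin' : ∀ᵐ ω ∂P, ∀ j : ℕ, f (S^[j] ω) < ∞ := by
    rw [ae_all_iff]
    intro j
    exact (hS.toMeasurePreserving.iterate j).quasiMeasurePreserving.ae hfin
  have hint : ENNReal.ofReal (∫ ω, (f ω).toReal ∂P) = ∫⁻ ω, f ω ∂P := by
    rw [integral_toReal hf.aemeasurable hfin, ENNReal.ofReal_toReal hi]
  filter_upwards [hb, hc, hfin'] with ω h1 h2 h3
  rw [h2, Function.const_apply, hc1] at h1
  have h4 := ENNReal.tendsto_ofReal h1
  rw [hint] at h4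
  refine Tendsto.congr' ?_ h4
  filter_upwards [eventually_gt_atTop 0] with n hn
  have hn' : (0 : ℝ) < n := by exact_mod_cast hn
  rw [birkhoffAverage, birkhoffSum, smul_eq_mul, inv_mul_eq_div, ENNReal.ofReal_div_of_pos hn',
    ENNReal.ofReal_natCast, ENNReal.ofReal_sum_of_nonneg fun _ _ => ENNReal.toReal_nonneg]
  congr 1
  exact Finset.sum_congr rfl fun j _ => ENNReal.ofReal_toReal (h3 j).ne

end H949.FK
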