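import Mathlib
import Pool.Agent.H949.FH.Defs
import Pool.Agent.H949.FH.Inv
import Pool.Agent.H949.FH.Line

set_option autoImplicit false

open MeasureTheory ProbabilityTheory
open scoped ENNReal

namespace H949.FK

open H949.FH

/-- How much the particle of the cell is faster than speed `1/20`. -/
noncomputable def burst (s : Cell 1) : ℝ≥0∞ := ⨆ k : Site 1, (((k 0).natAbs : ℝ≥0∞) - 20 * reach s k)

theorem burst_meas : Measurable burst := by
  unfold burst
  exact Measurable.iSup fun k =>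
    measurable_const.sub (measurable_const.mul (InvA.measurable_reach k))

theorem burst_ge (s : Cell 1) (k : Site 1) : ((k 0).natAbs : ℝ≥0∞) ≤ 20 * reach s k + burst s := by
  rw [← tsub_le_iff_left]
  exact le_iSup (fun k : Site 1 => (((k 0).natAbs : ℝ≥0∞) - 20 * reach s k)) k

namespace Burst_aux

theorem ae_one : ∀ᵐ s ∂(cellLaw 1 (Measure.dirac 1)), s.1 = 1 := by
  rw [ae_iff]
  have h3 : {s : Cell 1 | ¬ s.1 = 1} = ({1}ᶜ : Set ℕ) ×ˢ Set.univ := by
    ext c
    simp
  rw [h3]
  unfold cellLaw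
  rw [Measure.prod_prod, Measure.dirac_apply' _ (measurableSet_singleton 1).compl]
  simp

theorem meas_phi0 : Measurable fun s : Cell 1 => line_phi (s.2 0) :=
  line_meas_phi.comp ((measurable_pi_apply 0).comp measurable_snd)

theorem map_law : (cellLaw 1 (Measure.dirac 1)).map (fun s : Cell 1 => line_phi (s.2 0)) =
    H949.FG.walkLaw := by
  have e : (fun s : Cell 1 => line_phi (s.2 0)) =
      line_phi ∘ (fun f : ℕ → Path 1 => f 0) ∘ Prod.snd := rfl
  have h1 : (cellLaw 1 (Measure.dirac 1)).map Prod.snd =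
      Measure.infinitePi (fun _ : ℕ => pathLaw 1) := by
    unfold cellLaw
    rw [Measure.map_snd_prod, measure_univ, one_smul]
  have h2 : (Measure.infinitePi (fun _ : ℕ => pathLaw 1)).map (fun f : ℕ → Path 1 => f 0) =
      pathLaw 1 := Measure.infinitePi_map_eval (fun _ : ℕ => pathLaw 1) 0
  rw [e, ← Measure.map_map line_meas_phi ((measurable_pi_apply 0).comp measurable_snd),
    ← Measure.map_map (measurable_pi_apply 0) measurable_snd, h1, h2, line_path]

theorem reach_eq {s : Cell 1} (hs : s.1 = 1) (k : Site 1) :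
    reach s k = H949.FG.hit (line_phi (s.2 0)) (k 0) := by
  unfold reach
  rw [← line_hit]
  apply le_antisymm
  · exact iInf₂_le 0 (by rw [hs]; norm_num)
  · refine le_iInf₂ fun i hi => ?_
    rw [hs, Nat.lt_one_iff] at hi
    rw [hi]

theorem abs_pos_le (w : H949.FG.Walk) (n : ℕ) : (H949.FG.pos w n).natAbs ≤ n := by
  induction n with
  | zero => simp [H949.FG.pos]
  | succ n ih =>
    have h1 : H949.FG.pos w (n + 1) = H949.FG.pos w n + H949.FG.stp (w n).2 := by
      unfold H949.FG.pos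
      rw [Finset.sum_range_succ]
    have h2 : (H949.FG.stp (w n).2).natAbs = 1 := by
      unfold H949.FG.stp
      split_ifs <;> rfl
    rw [h1]
    refine (Int.natAbs_add_le _ _).trans ?_
    omega

/-- The bounding terms. -/
noncomputable def G (n : ℕ) (w : H949.FG.Walk) : ℝ≥0∞ :=
  ENNReal.ofReal (Real.exp (((n : ℝ) + 1) - 20 * H949.FG.tim w (n + 1)))

theorem meas_tim (n : ℕ) : Measurable fun w : H949.FG.Walk => H949.FG.tim w n := by
  unfold H949.FG.tim
  refine Finset.measurable_fun_sum _ fun i _ => ?_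
  exact measurable_fst.comp (measurable_pi_apply i)

theorem meas_G (n : ℕ) : Measurable (G n) := by
  unfold G
  exact ((measurable_const.sub ((meas_tim (n + 1)).const_mul 20)).exp).ennreal_ofReal

theorem le_G (w : H949.FG.Walk) (n : ℕ) :
    ((n : ℕ) : ℝ≥0∞) ≤ 20 * ENNReal.ofReal (H949.FG.tim w n) + ∑' m, G m w := by
  rcases Nat.eq_zero_or_pos n with h | h
  · subst h
    rw [Nat.cast_zero]
    exact zero_le
  · obtain ⟨m, rfl⟩ : ∃ m, n = m + 1 := ⟨n - 1, by omega⟩
    have h1 : ((m + 1 : ℕ) : ℝ) ≤ 20 * H949.FG.tim w (m + 1) +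
        Real.exp (((m : ℝ) + 1) - 20 * H949.FG.tim w (m + 1)) := by
      have := Real.add_one_le_exp (((m : ℝ) + 1) - 20 * H949.FG.tim w (m + 1))
      push_cast
      linarith
    have h2 : ((m + 1 : ℕ) : ℝ≥0∞) = ENNReal.ofReal ((m + 1 : ℕ) : ℝ) :=
      (ENNReal.ofReal_natCast (m + 1)).symm
    rw [h2]
    refine (ENNReal.ofReal_le_ofReal h1).trans (ENNReal.ofReal_add_le.trans ?_)
    refine add_le_add (le_of_eq ?_) (ENNReal.le_tsum m)
    rw [ENNReal.ofReal_mul (by norm_num), ENNReal.ofReal_ofNat]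

theorem burst_le {s : Cell 1} (hs : s.1 = 1) :
    burst s ≤ ∑' m, G m (line_phi (s.2 0)) := by
  unfold burst
  refine iSup_le fun k => ?_
  rw [tsub_le_iff_left, reach_eq hs]
  unfold H949.FG.hit
  rw [ENNReal.mul_iInf_of_ne (by norm_num) (by norm_num), ENNReal.iInf_add]
  refine le_iInf fun n => ?_
  rw [ENNReal.mul_iInf_of_ne (by norm_num) (by norm_num), ENNReal.iInf_add]
  refine le_iInf fun hn => ?_
  refine le_trans ?_ (le_G (line_phi (s.2 0)) n)
  have h1 := abs_pos_le (line_phi (s.2 0)) n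
  rw [hn] at h1
  exact_mod_cast h1

theorem int_G (n : ℕ) : ∫⁻ w, G n w ∂H949.FG.walkLaw ≤ ENNReal.ofReal ((1 / 7) ^ (n + 1)) := by
  have h1 : ∀ w : H949.FG.Walk, G n w = ENNReal.ofReal (Real.exp ((n : ℝ) + 1)) *
      ENNReal.ofReal (Real.exp (-((0 : ℝ) * (H949.FG.pos w (n + 1) : ℝ)) -
        20 * H949.FG.tim w (n + 1))) := by
    intro w
    unfold G
    rw [← ENNReal.ofReal_mul (Real.exp_pos _).le, ← Real.exp_add]
    congr 2
    ring
  have hm : Measurable fun w : H949.FG.Walk =>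
      ENNReal.ofReal (Real.exp (-((0 : ℝ) * (H949.FG.pos w (n + 1) : ℝ)) -
        20 * H949.FG.tim w (n + 1))) := by
    have e : (fun w : H949.FG.Walk =>
        ENNReal.ofReal (Real.exp (-((0 : ℝ) * (H949.FG.pos w (n + 1) : ℝ)) -
          20 * H949.FG.tim w (n + 1)))) = fun w : H949.FG.Walk =>
        ENNReal.ofReal (Real.exp (0 - 20 * H949.FG.tim w (n + 1))) := by
      funext w
      rw [zero_mul, neg_zero]
    rw [e]
    exact ((measurable_const.sub ((meas_tim (n + 1)).const_mul 20)).exp).ennreal_ofReal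
  simp_rw [h1]
  rw [lintegral_const_mul _ hm, H949.FG.ch_prod (by norm_num), Real.cosh_zero,
    ← ENNReal.ofReal_pow (by norm_num), ← ENNReal.ofReal_mul (Real.exp_pos _).le]
  apply ENNReal.ofReal_le_ofReal
  have h2 : Real.exp ((n : ℝ) + 1) = Real.exp 1 ^ (n + 1) := by
    rw [← Real.exp_nat_mul]
    congr 1
    push_cast
    ring
  rw [h2, ← mul_pow]
  apply pow_le_pow_left₀ (by positivity)
  have h3 := Real.exp_one_lt_d9
  norm_num
  linarith

end Burst_aux

open Burst_aux in
/-- The mean burst is smaller than one half.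

PROOF. Almost surely the cell has one particle `w = s.2 0` and its holding times are positive. For `k` and `n` with
`pos w n = k`: `|k| ≤ n`, hence `|k| - 20 tim w n ≤ n - 20 tim w n`. So
`burst s ≤ ⨆ n, ofReal (n - 20 tim w n) ≤ ∑'_{n ≥ 1} ofReal (exp (n - 20 tim w n))` (the term `n = 0` of the supremum is zero, `x ≤ exp x`),
and `∫⁻ ofReal (exp (n - 20 tim w n)) = e^n ∫⁻ ofReal (exp (-20 tim w n)) = (e / 21)^n` (`H949.FG.ch_prod` in `FG/Chern.lean` with
`θ = 0`, `lam = 20`, after `line_path`: the image of `pathLaw 1` under `line_phi` is `walkLaw`). The sum over `n ≥ 1` is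
`(e/21)/(1-e/21) < 0.15`. -/
theorem burst_mean : ∫⁻ s, burst s ∂(cellLaw 1 (Measure.dirac 1)) < 1 / 2 := by
  have h1 : ∫⁻ s, burst s ∂(cellLaw 1 (Measure.dirac 1)) ≤
      ∫⁻ s : Cell 1, ∑' m, G m (line_phi (s.2 0)) ∂(cellLaw 1 (Measure.dirac 1)) :=
    lintegral_mono_ae (ae_one.mono fun s hs => burst_le hs)
  have h2 : ∫⁻ s : Cell 1, ∑' m, G m (line_phi (s.2 0)) ∂(cellLaw 1 (Measure.dirac 1)) =
      ∑' m, ∫⁻ w, G m w ∂H949.FG.walkLaw := by
    have h20 := lintegral_tsum (μ := cellLaw 1 (Measure.dirac 1))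
      (f := fun m (s : Cell 1) => G m (line_phi (s.2 0)))
      fun m => ((meas_G m).comp meas_phi0).aemeasurable
    rw [h20]
    refine tsum_congr fun m => ?_
    rw [← map_law, lintegral_map (meas_G m) meas_phi0]
  have h3 : ∑' m, ∫⁻ w, G m w ∂H949.FG.walkLaw ≤ ENNReal.ofReal (1 / 6) := by
    refine (ENNReal.tsum_le_tsum int_G).trans (le_of_eq ?_)
    have hs : Summable fun n : ℕ => ((1 : ℝ) / 7) ^ n :=
      summable_geometric_of_lt_one (by norm_num) (by norm_num)
    rw [← ENNReal.ofReal_tsum_of_nonneg (fun n => by positivity)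
      ((summable_nat_add_iff 1).2 hs)]
    congr 1
    have h4 : ∀ n : ℕ, ((1 : ℝ) / 7) ^ (n + 1) = 1 / 7 * (1 / 7) ^ n := fun n => by
      rw [pow_succ]; ring
    simp_rw [h4]
    rw [tsum_mul_left, tsum_geometric_of_lt_one (by norm_num) (by norm_num)]
    norm_num
  refine lt_of_le_of_lt (h1.trans (h2.le.trans h3)) ?_
  have h5 : (1 / 2 : ℝ≥0∞) = ENNReal.ofReal (1 / 2) := by
    rw [one_div, one_div, ENNReal.ofReal_inv_of_pos (by norm_num)]
    simp
  rw [h5]
  exact (ENNReal.ofReal_lt_ofReal_iff (by norm_num)).2 (by norm_num)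

end H949.FK
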