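import Mathlib
import Pool.Agent.H949.FH.Defs

set_option autoImplicit false

open scoped ENNReal

namespace H949.FK

open H949.FH

namespace Nodup_aux

theorem along_le {d : ℕ} (ω : Config d) (x : Site d) (l₂ : List (Site d)) :
    ∀ (l₁ : List (Site d)) (z : Site d), along ω x l₂ ≤ along ω z (l₁ ++ x :: l₂) := by
  intro l₁
  induction l₁ with
  | nil =>
    intro z
    change along ω x l₂ ≤ reach (ω z) (x - z) + along ω x l₂
    exact le_add_self
  | cons a l₁ ih =>
    intro z
    change along ω x l₂ ≤ reach (ω z) (a - z) + along ω a (l₁ ++ x :: l₂)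
    exact (ih a).trans le_add_self

theorem main {d : ℕ} (ω : Config d) (y : Site d) : ∀ (n : ℕ) (l : List (Site d)), l.length ≤ n →
    ∀ x : Site d, (x :: l).getLast (List.cons_ne_nil x l) = y →
    ∃ l' : List (Site d), (x :: l').Nodup ∧ (x :: l').getLast (List.cons_ne_nil x l') = y ∧
      (∀ z ∈ l', z ∈ l) ∧ along ω x l' ≤ along ω x l := by
  intro n
  induction n with
  | zero =>
    intro l hl x h
    have : l = [] := List.eq_nil_of_length_eq_zero (by omega)
    subst this
    exact ⟨[], by simp, h, by simp, le_rfl⟩
  | succ n ih =>
    intro l hl x h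
    by_cases hx : x ∈ l
    · obtain ⟨l₁, l₂, rfl⟩ := List.append_of_mem hx
      have h2 : (x :: l₂).getLast (List.cons_ne_nil x l₂) = y := by
        rw [← h]
        exact (List.getLast_append_of_ne_nil (l := x :: l₁) (by simp)
          (List.cons_ne_nil x l₂)).symm
      obtain ⟨l', h3, h4, h5, h6⟩ := ih l₂ (by simp at hl; omega) x h2
      exact ⟨l', h3, h4, fun z hz => by simp [h5 z hz], h6.trans (along_le ω x l₂ l₁ x)⟩
    · cases l with
      | nil => exact ⟨[], by simp, h, by simp, le_rfl⟩
      | cons a l =>
        rw [List.getLast_cons_cons] at h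
        obtain ⟨l', h3, h4, h5, h6⟩ := ih l (by simp at hl; omega) a h
        refine ⟨a :: l', ?_, ?_, ?_, ?_⟩
        · rw [List.nodup_cons]
          refine ⟨fun hxa => ?_, h3⟩
          rcases List.mem_cons.1 hxa with h7 | h7
          · exact hx (h7 ▸ List.mem_cons_self)
          · exact hx (List.mem_cons_of_mem _ (h5 x h7))
        · rw [List.getLast_cons_cons]
          exact h4
        · intro z hz
          rcases List.mem_cons.1 hz with h7 | h7
          · exact h7 ▸ List.mem_cons_self
          · exact List.mem_cons_of_mem _ (h5 z h7)
        · change reach (ω x) (a - x) + along ω a l' ≤ reach (ω x) (a - x) + along ω a l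
          exact add_le_add le_rfl h6

end Nodup_aux

/-- Chains can be taken without repetitions.

PROOF. Strong induction on the length of `l`. If `x ∈ l`, write `l = l₁ ++ x :: l₂`; then `x :: l₂` has the same last element
and `along ω x l₂ ≤ along ω x l` (terms are nonnegative; `along` of a concatenation is a sum, see `InvA.along_append` in
FH/Inv.lean); apply the induction hypothesis to `l₂`. If `x ∉ l`, and `l = y :: l'`, apply the induction hypothesis to
the chain `l'` from `y`, giving a chain `l''` from `y` whose sites are among the sites of `y :: l'`, so that `x` does not occur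
(include in the induction statement: the elements of the new list are elements of the old one); take `y :: l''`. -/
theorem exists_nodup {d : ℕ} (ω : Config d) (x y : Site d) (l : List (Site d))
    (h : (x :: l).getLast (List.cons_ne_nil x l) = y) :
    ∃ l' : List (Site d), (x :: l').Nodup ∧ (x :: l').getLast (List.cons_ne_nil x l') = y ∧
      along ω x l' ≤ along ω x l := by
  obtain ⟨l', h1, h2, -, h3⟩ := Nodup_aux.main ω y l.length l le_rfl x h
  exact ⟨l', h1, h2, h3⟩

end H949.FK
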