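import Mathlib
import Pool.Agent.H949.FH.Defs
import Pool.Agent.H949.FK.Burst
import Pool.Agent.H949.FK.Nodup

set_option autoImplicit false

open scoped ENNReal

namespace H949.FK

open H949.FH

namespace Chain_aux

/-- The total variation of the coordinates along a chain. -/
def tv : Site 1 → List (Site 1) → ℕ
  | _, [] => 0
  | x, y :: l => ((y - x) 0).natAbs + tv y l

theorem tv_le (ω : Config 1) (l : List (Site 1)) : ∀ x : Site 1, (tv x l : ℝ≥0∞) ≤
    20 * along ω x l + ((x :: l).map fun y => burst (ω y)).sum := by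
  induction l with
  | nil =>
    intro x
    unfold tv
    rw [Nat.cast_zero]
    exact bot_le
  | cons y l ih =>
    intro x
    have h1 := burst_ge (ω x) (y - x)
    have h2 := ih y
    have e1 : along ω x (y :: l) = reach (ω x) (y - x) + along ω y l := rfl
    have e2 : tv x (y :: l) = ((y - x) 0).natAbs + tv y l := rfl
    rw [e1, e2, Nat.cast_add, List.map_cons, List.sum_cons]
    calc ((((y - x) 0).natAbs : ℕ) : ℝ≥0∞) + (tv y l : ℝ≥0∞)
        ≤ (20 * reach (ω x) (y - x) + burst (ω x)) +
          (20 * along ω y l + ((y :: l).map fun y => burst (ω y)).sum) := add_le_add h1 h2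
      _ = 20 * (reach (ω x) (y - x) + along ω y l) +
          (burst (ω x) + ((y :: l).map fun y => burst (ω y)).sum) := by ring

theorem dist_le (l : List (Site 1)) : ∀ x : Site 1, ∀ a ∈ x :: l, ∀ b ∈ x :: l,
    (a 0 - b 0).natAbs ≤ tv x l := by
  induction l with
  | nil =>
    intro x a ha b hb
    rw [List.mem_singleton] at ha hb
    rw [ha, hb, sub_self]
    exact Nat.zero_le _
  | cons y l ih =>
    intro x a ha b hb
    have e2 : tv x (y :: l) = ((y - x) 0).natAbs + tv y l := rfl
    have e3 : (y - x) 0 = y 0 - x 0 := rfl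
    rw [e2, e3]
    rcases List.mem_cons.1 ha with ha | ha
    · rcases List.mem_cons.1 hb with hb | hb
      · rw [ha, hb]
        omega
      · have h1 := ih y y (List.mem_cons_self) b hb
        rw [ha]
        omega
    · rcases List.mem_cons.1 hb with hb | hb
      · have h1 := ih y y (List.mem_cons_self) a ha
        rw [hb]
        omega
      · have h1 := ih y a ha b hb
        omega

theorem ax_coord (y : Site 1) : ax 1 (y 0) = y := by
  funext i
  have hi : i = 0 := Subsingleton.elim i 0
  rw [hi]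
  unfold ax
  exact Pi.single_eq_same _ _

theorem ax_zero (m : ℤ) : ax 1 m 0 = m := by
  unfold ax
  exact Pi.single_eq_same _ _

theorem ax_inj : Function.Injective (ax 1) := by
  intro a b h
  rw [← ax_zero a, ← ax_zero b, h]

end Chain_aux

open Chain_aux in
/-- Lower bound for the time along a chain without repetitions.

PROOF. Let the sites of the chain be `x_0 = 0, x_1, ..., x_k = n` (coordinates `x_i 0`), `R` the largest coordinate, `-L` the
smallest one (`L ≥ 0`, `R ≥ n` since `0` and `n` occur). By `burst_ge`,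
`|x_{i+1} - x_i| ≤ 20 reach (ω x_i) (x_{i+1} - x_i) + burst (ω x_i)`; sum over `i`. The sites are different and in `[-L, R]`, so
`∑ burst (ω x_i) ≤ ∑_{x ∈ [-L, R]} burst (ω (ax 1 x))`. The sum of the `|x_{i+1} - x_i|` is at least the distance between
the largest and the smallest coordinate, `L + R`. -/
theorem chain_low (ω : Config 1) (n : ℕ) (l : List (Site 1)) (hn : ((0 : Site 1) :: l).Nodup)
    (h : ((0 : Site 1) :: l).getLast (List.cons_ne_nil 0 l) = ax 1 n) :
    ∃ L R : ℕ, n ≤ R ∧ ((L + R : ℕ) : ℝ≥0∞) ≤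
      20 * along ω 0 l + ∑ x ∈ Finset.Icc (-(L : ℤ)) R, burst (ω (ax 1 x)) := by
  classical
  have h0 : (0 : Site 1) ∈ ((0 : Site 1) :: l) := List.mem_cons_self
  have hlast : ax 1 n ∈ ((0 : Site 1) :: l) := h ▸ List.getLast_mem _
  have hne : (((0 : Site 1) :: l).toFinset).Nonempty := ⟨0, List.mem_toFinset.2 h0⟩
  obtain ⟨a, ha, hamax⟩ := Finset.exists_max_image _ (fun y : Site 1 => y 0) hne
  obtain ⟨b, hb, hbmin⟩ := Finset.exists_min_image _ (fun y : Site 1 => y 0) hne
  rw [List.mem_toFinset] at ha hb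
  have ha0 : 0 ≤ a 0 := hamax 0 (List.mem_toFinset.2 h0)
  have hb0 : b 0 ≤ 0 := hbmin 0 (List.mem_toFinset.2 h0)
  have han : (n : ℤ) ≤ a 0 := by
    have h1 := hamax (ax 1 n) (List.mem_toFinset.2 hlast)
    simp only [ax_zero] at h1
    exact h1
  refine ⟨(- b 0).toNat, (a 0).toNat, by omega, ?_⟩
  have h1 := dist_le l 0 a ha b hb
  have h2 : (- b 0).toNat + (a 0).toNat ≤ tv 0 l := by omega
  have h3 : (((- b 0).toNat + (a 0).toNat : ℕ) : ℝ≥0∞) ≤ (tv 0 l : ℝ≥0∞) := by exact_mod_cast h2
  refine h3.trans ((tv_le ω l 0).trans ?_)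
  refine add_le_add le_rfl ?_
  rw [← List.sum_toFinset _ hn, ← Finset.sum_image (s := Finset.Icc (-(((- b 0).toNat : ℕ) : ℤ))
    (((a 0).toNat : ℕ) : ℤ)) (g := ax 1) (f := fun y => burst (ω y)) (fun x _ y _ hxy => ax_inj hxy)]
  refine Finset.sum_le_sum_of_subset fun y hy => ?_
  rw [Finset.mem_image]
  refine ⟨y 0, ?_, ax_coord y⟩
  have h4 := hamax y hy
  have h5 := hbmin y hy
  rw [Finset.mem_Icc]
  constructor <;> omega

end H949.FK
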