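import Mathlib
import Pool.Agent.H949.FH.Defs

set_option autoImplicit false

open Filter Topology
open scoped ENNReal Pointwise

namespace H949.FK

open H949.FH

namespace Det_aux

theorem real_lim (f : ℕ → ℝ≥0∞) (μ : ℝ) (hμ : 0 < μ)
    (h : Tendsto (fun n : ℕ => f n / n) atTop (𝓝 (ENNReal.ofReal μ))) :
    Tendsto (fun n : ℕ => (f n).toReal / n) atTop (𝓝 μ) := by
  have h1 := (ENNReal.tendsto_toReal (ENNReal.ofReal_ne_top (r := μ))).comp h
  rw [ENNReal.toReal_ofReal hμ.le] at h1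
  refine h1.congr fun n => ?_
  simp [ENNReal.toReal_div]

theorem site_eq (y : Site 1) : y = ax 1 (y 0) := by
  funext i
  have hi : i = 0 := Subsingleton.elim _ _
  subst hi
  simp [ax]

theorem from_dist {p n μ δ : ℝ} (hn : 0 < n) (h : dist (p / n) μ < δ) :
    (μ - δ) * n ≤ p ∧ p ≤ (μ + δ) * n := by
  rw [Real.dist_eq, abs_lt] at h
  obtain ⟨ha, hb⟩ := h
  constructor
  · have : μ - δ ≤ p / n := by linarith
    rwa [le_div_iff₀ hn] at this
  · have : p / n ≤ μ + δ := by linarith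
    rwa [div_le_iff₀ hn] at this

theorem bounds (ω : Config 1) (μ δ : ℝ) (hμ : 0 < μ) (hδ : 0 < δ)
    (h1 : Tendsto (fun n : ℕ => passage ω 0 (ax 1 n) / n) atTop (𝓝 (ENNReal.ofReal μ)))
    (h2 : Tendsto (fun n : ℕ => passage ω 0 (ax 1 (-n)) / n) atTop (𝓝 (ENNReal.ofReal μ))) :
    ∃ N : ℕ, ∀ y : ℤ, N ≤ y.natAbs →
      (μ - δ) * |(y : ℝ)| ≤ (passage ω 0 (ax 1 y)).toReal ∧
        (passage ω 0 (ax 1 y)).toReal ≤ (μ + δ) * |(y : ℝ)| := by
  have h1' := real_lim (fun n : ℕ => passage ω 0 (ax 1 n)) μ hμ h1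
  have h2' := real_lim (fun n : ℕ => passage ω 0 (ax 1 (-n))) μ hμ h2
  obtain ⟨N1, hN1⟩ := (Metric.tendsto_atTop.1 h1') δ hδ
  obtain ⟨N2, hN2⟩ := (Metric.tendsto_atTop.1 h2') δ hδ
  refine ⟨max (max N1 N2) 1, fun y hy => ?_⟩
  obtain ⟨n, rfl | rfl⟩ := Int.eq_nat_or_neg y
  · have hn : max (max N1 N2) 1 ≤ n := by simpa using hy
    have hn1 : N1 ≤ n := le_trans (le_trans (le_max_left _ _) (le_max_left _ _)) hn
    have hn0 : 0 < n := lt_of_lt_of_le Nat.one_pos (le_trans (le_max_right _ _) hn)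
    have hnr : (0 : ℝ) < n := by exact_mod_cast hn0
    have h := from_dist hnr (hN1 n hn1)
    have habs : |((n : ℤ) : ℝ)| = n := by
      rw [Int.cast_natCast, abs_of_pos hnr]
    rw [habs]
    exact h
  · have hn : max (max N1 N2) 1 ≤ n := by simpa using hy
    have hn1 : N2 ≤ n := le_trans (le_trans (le_max_right _ _) (le_max_left _ _)) hn
    have hn0 : 0 < n := lt_of_lt_of_le Nat.one_pos (le_trans (le_max_right _ _) hn)
    have hnr : (0 : ℝ) < n := by exact_mod_cast hn0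
    have h := from_dist hnr (hN2 n hn1)
    have habs : |((-(n : ℤ) : ℤ) : ℝ)| = n := by
      rw [Int.cast_neg, Int.cast_natCast, abs_neg, abs_of_pos hnr]
    rw [habs]
    exact h

theorem finite_bound (p : ℤ → ℝ) (hp : ∀ y, 0 ≤ p y) (N : ℕ) :
    ∃ C : ℝ, 0 ≤ C ∧ ∀ y : ℤ, y.natAbs < N → p y ≤ C := by
  refine ⟨∑ y ∈ Finset.Icc (-(N : ℤ)) N, p y, Finset.sum_nonneg fun y _ => hp y, fun y hy => ?_⟩
  refine Finset.single_le_sum (f := p) (fun z _ => hp z) ?_
  rw [Finset.mem_Icc]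
  omega

end Det_aux

open Det_aux in
/-- From the limits on the two half axes to the shape theorem on the line. The limit shape is `[-1/μ, 1/μ]`.

PROOF. Deterministic. Let `v = 1/μ`, `0 < ε < 1`. There is `N` with
`(1 - ε/4) μ n ≤ T n ≤ (1 + ε/4) μ n` for `|y| = n ≥ N` on both sides. FIRST INCLUSION: let `r = (1-ε) a`, `|a| ≤ v`; we need
`t r ∈ cluster ω t`: take the integer `y` with `y - 1/2 < t r ≤ y + 1/2`. Then `|y| ≤ (1-ε) v t + 1/2`. If `|y| < N`: `passage ω 0 y` is at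
most a finite constant (maximum over finitely many sites) `≤ t` for large `t`. If `|y| ≥ N`:
`passage ≤ (1+ε/4) μ |y| ≤ (1+ε/4)((1-ε) t + μ/2) ≤ t` for large `t` (as `(1+ε/4)(1-ε) < 1`). SECOND INCLUSION: `t r ∈ cluster ω t`, with
the site `y`, `passage ω 0 y ≤ t`: if `|y| < N` then `|t r| ≤ N + 1/2 ≤ (1+ε) v t` for large `t`; if `|y| ≥ N` then
`(1-ε/4) μ |y| ≤ t`, so `|t r| ≤ v t/(1-ε/4) + 1/2 ≤ (1+ε) v t` for large `t` (as `1/(1-ε/4) < 1 + ε`). Sets: `x ∈ c • A ↔` scaled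
point in `A` (`Set.mem_smul_set_iff_inv_smul_mem₀`); a site of `ℤ^1` is `ax 1 n` or `ax 1 (-n)`, and `cluster`
is defined by `passage ω 0 y ≤ ENNReal.ofReal t`. -/
theorem shape_of (ω : Config 1) (μ : ℝ) (hμ : 0 < μ)
    (h1 : Tendsto (fun n : ℕ => passage ω 0 (ax 1 n) / n) atTop (𝓝 (ENNReal.ofReal μ)))
    (h2 : Tendsto (fun n : ℕ => passage ω 0 (ax 1 (-n)) / n) atTop (𝓝 (ENNReal.ofReal μ)))
    (hfin : ∀ y : Site 1, passage ω 0 y ≠ ∞) :
    ∀ ε : ℝ, 0 < ε → ε < 1 → ∃ t₀ : ℝ, ∀ t ≥ t₀,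
      (1 - ε) • {r : Fin 1 → ℝ | |r 0| ≤ 1 / μ} ⊆ t⁻¹ • cluster ω t ∧
        t⁻¹ • cluster ω t ⊆ (1 + ε) • {r : Fin 1 → ℝ | |r 0| ≤ 1 / μ} := by
  intro ε hε hε1
  obtain ⟨N, hN⟩ := bounds ω μ (μ * (ε / 4)) hμ (by positivity) h1 h2
  obtain ⟨C, hC0, hC⟩ := finite_bound (fun y => (passage ω 0 (ax 1 y)).toReal)
    (fun y => ENNReal.toReal_nonneg) N
  -- upper bound for all sites
  have hup : ∀ y : ℤ, (passage ω 0 (ax 1 y)).toReal ≤ C + (μ + μ * (ε / 4)) * |(y : ℝ)| := by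
    intro y
    by_cases hy : y.natAbs < N
    · have h3 : 0 ≤ (μ + μ * (ε / 4)) * |(y : ℝ)| := by positivity
      have h5 : (passage ω 0 (ax 1 y)).toReal ≤ C := hC y hy
      linarith
    · have := (hN y (not_lt.1 hy)).2
      linarith
  -- lower bound for all sites
  have hd : 0 < μ - μ * (ε / 4) := by nlinarith
  have hlo : ∀ y : ℤ, (μ - μ * (ε / 4)) * (|(y : ℝ)| - N) ≤ (passage ω 0 (ax 1 y)).toReal := by
    intro y
    by_cases hy : y.natAbs < N
    · have h3 : |(y : ℝ)| ≤ N := by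
        have h6 : ((y.natAbs : ℕ) : ℝ) = |(y : ℝ)| := by
          rw [Nat.cast_natAbs, Int.cast_abs]
        rw [← h6]
        exact_mod_cast hy.le
      have h4 : (μ - μ * (ε / 4)) * (|(y : ℝ)| - N) ≤ 0 :=
        mul_nonpos_of_nonneg_of_nonpos hd.le (by linarith)
      exact h4.trans ENNReal.toReal_nonneg
    · have h3 := (hN y (not_lt.1 hy)).1
      have h4 : 0 ≤ (μ - μ * (ε / 4)) * (N : ℝ) := by positivity
      nlinarith
  set K : ℝ := C + (μ + μ * (ε / 4)) * (1 / 2) with hK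
  have hK0 : 0 ≤ K := by positivity
  refine ⟨max 1 (max (K / (3 * ε / 4)) (2 * μ * (N + 1 / 2) / ε)), fun t ht => ?_⟩
  have ht1 : 1 ≤ t := le_trans (le_max_left _ _) ht
  have ht0 : 0 < t := by linarith
  have htK : K ≤ (3 * ε / 4) * t := by
    have h3 : K / (3 * ε / 4) ≤ t :=
      le_trans (le_trans (le_max_left _ _) (le_max_right _ _)) ht
    rw [div_le_iff₀ (by positivity)] at h3
    linarith
  have htN : 2 * μ * (N + 1 / 2) ≤ ε * t := by
    have h3 : 2 * μ * (N + 1 / 2) / ε ≤ t :=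
      le_trans (le_trans (le_max_right _ _) (le_max_right _ _)) ht
    rw [div_le_iff₀ hε] at h3
    linarith
  constructor
  · rintro x ⟨a, ha, rfl⟩
    simp only [Set.mem_ofPred_eq] at ha
    rw [Set.mem_smul_set_iff_inv_smul_mem₀ (inv_ne_zero ht0.ne'), inv_inv]
    set r : ℝ := t * ((1 - ε) * a 0) with hr
    have hrabs : |r| ≤ (1 - ε) * t / μ := by
      rw [hr, abs_mul, abs_mul, abs_of_pos ht0, abs_of_pos (by linarith : (0 : ℝ) < 1 - ε)]
      have h3 : t * ((1 - ε) * |a 0|) ≤ t * ((1 - ε) * (1 / μ)) := by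
        apply mul_le_mul_of_nonneg_left _ ht0.le
        exact mul_le_mul_of_nonneg_left ha (by linarith)
      refine h3.trans (le_of_eq ?_)
      field_simp
    set y : ℤ := ⌈r - 1 / 2⌉ with hy
    have hy1 : r - 1 / 2 ≤ y := Int.le_ceil _
    have hy2 : (y : ℝ) < r - 1 / 2 + 1 := Int.ceil_lt_add_one _
    have hyabs : |(y : ℝ)| ≤ |r| + 1 / 2 := by
      have h3 : |(y : ℝ) - r| ≤ 1 / 2 := by
        rw [abs_le]
        constructor <;> linarith
      have h4 : |(y : ℝ)| ≤ |(y : ℝ) - r| + |r| := by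
        have := abs_add_le ((y : ℝ) - r) r
        simpa using this
      linarith
    have hp : (passage ω 0 (ax 1 y)).toReal ≤ t := by
      have h3 := hup y
      have h4 : (μ + μ * (ε / 4)) * |(y : ℝ)| ≤
          (μ + μ * (ε / 4)) * ((1 - ε) * t / μ + 1 / 2) := by
        apply mul_le_mul_of_nonneg_left _ (by positivity)
        linarith
      have h5 : (μ + μ * (ε / 4)) * ((1 - ε) * t / μ + 1 / 2) =
          (1 + ε / 4) * (1 - ε) * t + (μ + μ * (ε / 4)) * (1 / 2) := by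
        field_simp
      have h6 : (1 + ε / 4) * (1 - ε) * t ≤ (1 - 3 * ε / 4) * t := by
        apply mul_le_mul_of_nonneg_right _ ht0.le
        nlinarith [sq_nonneg ε]
      rw [hK] at htK
      linarith
    refine ⟨ax 1 y, ?_, fun i => ?_⟩
    · rw [← ENNReal.ofReal_toReal (hfin (ax 1 y))]
      exact ENNReal.ofReal_le_ofReal hp
    · have hi : i = 0 := Subsingleton.elim _ _
      subst hi
      have h3 : ax 1 y 0 = y := by simp [ax]
      have h4 : (t • (fun x : Fin 1 → ℝ => (1 - ε) • x) a) 0 = r := by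
        simp [hr]
      rw [h3, h4]
      constructor <;> linarith
  · intro x hx
    rw [Set.mem_smul_set_iff_inv_smul_mem₀ (inv_ne_zero ht0.ne'), inv_inv] at hx
    obtain ⟨y, hy, hyx⟩ := hx
    rw [Set.mem_smul_set_iff_inv_smul_mem₀ (by linarith : (1 : ℝ) + ε ≠ 0)]
    simp only [Set.mem_ofPred_eq, Pi.smul_apply, smul_eq_mul]
    have hx0 := hyx 0
    simp only [Pi.smul_apply, smul_eq_mul] at hx0
    have hp : (passage ω 0 (ax 1 (y 0))).toReal ≤ t := by
      rw [← site_eq]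
      exact ENNReal.toReal_le_of_le_ofReal ht0.le hy
    have h3 := (hlo (y 0)).trans hp
    have h4 : |t * x 0| ≤ |((y 0 : ℤ) : ℝ)| + 1 / 2 := by
      have h5 : |t * x 0 - ((y 0 : ℤ) : ℝ)| ≤ 1 / 2 := by
        rw [abs_le]
        constructor <;> linarith [hx0.1, hx0.2]
      have h6 : |t * x 0| ≤ |t * x 0 - ((y 0 : ℤ) : ℝ)| + |((y 0 : ℤ) : ℝ)| := by
        have := abs_add_le (t * x 0 - ((y 0 : ℤ) : ℝ)) ((y 0 : ℤ) : ℝ)
        simpa using this
      linarith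
    have h7 : μ * |((y 0 : ℤ) : ℝ)| ≤ μ * N + (1 + ε / 2) * t := by
      have h8 : (1 + ε / 2) * ((μ - μ * (ε / 4)) * (|((y 0 : ℤ) : ℝ)| - N)) ≤ (1 + ε / 2) * t :=
        mul_le_mul_of_nonneg_left h3 (by positivity)
      rcases le_or_gt (|((y 0 : ℤ) : ℝ)| - N) 0 with h9 | h9
      · have : μ * (|((y 0 : ℤ) : ℝ)| - N) ≤ 0 := mul_nonpos_of_nonneg_of_nonpos hμ.le h9
        have h10 : 0 ≤ (1 + ε / 2) * t := by positivity
        linarith
      · have h11 : 1 ≤ (1 + ε / 2) * (1 - ε / 4) := by nlinarith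
        have h12 : μ * (|((y 0 : ℤ) : ℝ)| - N) * 1 ≤
            μ * (|((y 0 : ℤ) : ℝ)| - N) * ((1 + ε / 2) * (1 - ε / 4)) :=
          mul_le_mul_of_nonneg_left h11 (mul_pos hμ h9).le
        nlinarith
    have h13 : μ * (t * |x 0|) ≤ (1 + ε) * t := by
      have h14 : |t * x 0| = t * |x 0| := by rw [abs_mul, abs_of_pos ht0]
      rw [← h14]
      have h15 : μ * |t * x 0| ≤ μ * (|((y 0 : ℤ) : ℝ)| + 1 / 2) :=
        mul_le_mul_of_nonneg_left h4 hμ.le
      nlinarith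
    have h16 : μ * |x 0| ≤ 1 + ε := by
      have h17 : (μ * |x 0|) * t ≤ (1 + ε) * t := by linarith
      exact le_of_mul_le_mul_right h17 ht0
    rw [abs_mul, abs_of_pos (by positivity : (0 : ℝ) < (1 + ε)⁻¹), le_div_iff₀ hμ,
      inv_mul_eq_div, div_mul_eq_mul_div, div_le_one (by positivity)]
    linarith

end H949.FK
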