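import Mathlib
import Pool.Agent.H949.FG.Defs
import Pool.Agent.H949.FG.MeanBk

set_option autoImplicit false

open MeasureTheory ProbabilityTheory
open scoped ENNReal

namespace H949.FK

open H949.FG

namespace Exit_aux

/-- none of the first `n` blocks of seven jumps consists of jumps to the right only -/
def B (n : ℕ) : Set Walk := {w | ∀ j < n, ∃ i < 7, (w (7 * j + i)).2 = false}

theorem measB (n : ℕ) : MeasurableSet (B n) := by
  have : B n = ⋂ j : ℕ, ⋂ (_ : j < n), ⋃ i : ℕ, ⋃ (_ : i < 7),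
      {w : Walk | (w (7 * j + i)).2 = false} := by
    ext w
    simp only [B, Set.mem_ofPred_eq, Set.mem_iInter, Set.mem_iUnion, exists_prop]
  rw [this]
  refine MeasurableSet.iInter fun j => MeasurableSet.iInter fun _ => MeasurableSet.iUnion fun i =>
    MeasurableSet.iUnion fun _ => ?_
  have hm : Measurable fun w : Walk => (w (7 * j + i)).2 :=
    measurable_snd.comp (measurable_pi_apply _)
  exact hm (measurableSet_singleton false)

theorem pairLaw_true : pairLaw {p : ℝ × Bool | p.2 = true} = 2⁻¹ := by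
  have hset : {p : ℝ × Bool | p.2 = true} = Set.univ ×ˢ {true} := by
    ext p
    simp
  rw [hset, pairLaw, Measure.prod_prod]
  simp [coin]

theorem B_succ (n : ℕ) : B (n + 1) =
    {w : Walk | (∀ y < 7, w y ∈ (Set.univ : Set (ℝ × Bool))) ∧ (fun j => w (7 + j)) ∈ B n} \
    {w : Walk | (∀ y < 7, w y ∈ {p : ℝ × Bool | p.2 = true}) ∧ (fun j => w (7 + j)) ∈ B n} := by
  ext w
  simp only [B, Set.mem_ofPred_eq, Set.mem_sdiff, Set.mem_univ, implies_true, true_and, not_and]
  constructor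
  · intro h
    have hs : ∀ j < n, ∃ i < 7, (w (7 + (7 * j + i))).2 = false := by
      intro j hj
      obtain ⟨i, hi, h1⟩ := h (j + 1) (by omega)
      refine ⟨i, hi, ?_⟩
      have e : 7 + (7 * j + i) = 7 * (j + 1) + i := by ring
      rw [e]
      exact h1
    refine ⟨hs, fun h2 => ?_⟩
    obtain ⟨i, hi, h1⟩ := h 0 (by omega)
    have h3 := h2 i hi
    rw [Nat.mul_zero, Nat.zero_add] at h1
    rw [h1] at h3
    exact absurd h3 (by simp)
  · rintro ⟨h1, h2⟩ j hj
    rcases Nat.eq_zero_or_pos j with h0 | h0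
    · subst h0
      by_contra hcon
      push Not at hcon
      refine h2 (fun y hy => ?_) h1
      have h3 := hcon y hy
      rw [Nat.mul_zero, Nat.zero_add] at h3
      simpa using h3
    · obtain ⟨k, rfl⟩ : ∃ k, j = k + 1 := ⟨j - 1, by omega⟩
      obtain ⟨i, hi, h3⟩ := h1 k (by omega)
      refine ⟨i, hi, ?_⟩
      have e : 7 + (7 * k + i) = 7 * (k + 1) + i := by ring
      rw [e] at h3
      exact h3

theorem B_le (n : ℕ) : walkLaw (B n) ≤ (1 - 2⁻¹ ^ 7) ^ n := by
  induction n with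
  | zero => simpa using prob_le_one
  | succ n ih =>
    have h1 : walkLaw {w : Walk | (∀ y < 7, w y ∈ (Set.univ : Set (ℝ × Bool))) ∧
        (fun j => w (7 + j)) ∈ B n} = walkLaw (B n) := by
      rw [walkLaw_split 7 (fun _ => Set.univ) (fun _ => MeasurableSet.univ) (B n) (measB n)]
      simp
    have hmt : MeasurableSet {p : ℝ × Bool | p.2 = true} :=
      measurable_snd (measurableSet_singleton true)
    have h2 : walkLaw {w : Walk | (∀ y < 7, w y ∈ {p : ℝ × Bool | p.2 = true}) ∧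
        (fun j => w (7 + j)) ∈ B n} = 2⁻¹ ^ 7 * walkLaw (B n) := by
      rw [walkLaw_split 7 (fun _ => {p : ℝ × Bool | p.2 = true}) (fun _ => hmt) (B n) (measB n),
        Finset.prod_const, Finset.card_range, pairLaw_true]
    have hm2 : MeasurableSet {w : Walk | (∀ y < 7, w y ∈ {p : ℝ × Bool | p.2 = true}) ∧
        (fun j => w (7 + j)) ∈ B n} := by
      have h3 : MeasurableSet {w : Walk | ∀ y < 7, w y ∈ {p : ℝ × Bool | p.2 = true}} := by
        have e : {w : Walk | ∀ y < 7, w y ∈ {p : ℝ × Bool | p.2 = true}} =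
            ⋂ y ∈ Finset.range 7, (fun w : Walk => w y) ⁻¹' {p : ℝ × Bool | p.2 = true} := by
          ext w
          simp only [Set.mem_ofPred_eq, Set.mem_iInter, Finset.mem_range, Set.mem_preimage]
        rw [e]
        exact Finset.measurableSet_biInter _ fun y _ => measurable_pi_apply y hmt
      have h4 : Measurable fun (w : Walk) (j : ℕ) => w (7 + j) :=
        measurable_pi_lambda _ fun j => measurable_pi_apply (7 + j)
      exact h3.inter (h4 (measB n))
    have hsub : {w : Walk | (∀ y < 7, w y ∈ {p : ℝ × Bool | p.2 = true}) ∧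
        (fun j => w (7 + j)) ∈ B n} ⊆ {w : Walk | (∀ y < 7, w y ∈ (Set.univ : Set (ℝ × Bool))) ∧
        (fun j => w (7 + j)) ∈ B n} := fun w hw => ⟨fun _ _ => Set.mem_univ _, hw.2⟩
    rw [B_succ, measure_sdiff hsub hm2.nullMeasurableSet (measure_ne_top _ _), h1, h2]
    calc walkLaw (B n) - 2⁻¹ ^ 7 * walkLaw (B n) = (1 - 2⁻¹ ^ 7) * walkLaw (B n) := by
          rw [ENNReal.sub_mul (fun _ _ => measure_ne_top _ _), one_mul]
      _ ≤ (1 - 2⁻¹ ^ 7) * (1 - 2⁻¹ ^ 7) ^ n := mul_le_mul_right ih _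
      _ = (1 - 2⁻¹ ^ 7) ^ (n + 1) := (pow_succ' _ _).symm

theorem ext_mem (n : ℕ) (v : Walk) :
    MeanBk.ext n (fun i : Finset.range n => v i) ∈ B (n / 7) ↔ v ∈ B (n / 7) := by
  have hp : ∀ j < n / 7, ∀ i < 7,
      MeanBk.ext n (fun i : Finset.range n => v i) (7 * j + i) = v (7 * j + i) := by
    intro j hj i hi
    have h : 7 * j + i ∈ Finset.range n := Finset.mem_range.2 (by omega)
    unfold MeanBk.ext
    rw [dif_pos h]
  constructor
  · intro h j hj
    obtain ⟨i, hi, h1⟩ := h j hj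
    rw [hp j hj i hi] at h1
    exact ⟨i, hi, h1⟩
  · intro h j hj
    obtain ⟨i, hi, h1⟩ := h j hj
    rw [← hp j hj i hi] at h1
    exact ⟨i, hi, h1⟩

/-- the holding time with index `n` is independent of the walk up to time `n` -/
theorem mean_ind (n : ℕ) :
    ∫⁻ v, ENNReal.ofReal (v n).1 * (B (n / 7)).indicator 1 v ∂walkLaw ≤
      4 * walkLaw (B (n / 7)) := by
  have hg : Measurable fun v : Walk => ENNReal.ofReal (v n).1 :=
    (measurable_fst.comp (measurable_pi_apply n)).ennreal_ofReal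
  have hf : Measurable fun v : Walk => (B (n / 7)).indicator (1 : Walk → ℝ≥0∞) v :=
    measurable_one.indicator (measB _)
  have hi : IndepFun (fun v : Walk => ENNReal.ofReal (v n).1)
      (fun v : Walk => (B (n / 7)).indicator (1 : Walk → ℝ≥0∞) v) walkLaw := by
    have h1 : iIndepFun (fun (i : ℕ) (v : Walk) => v i) walkLaw :=
      iIndepFun_infinitePi (P := fun _ : ℕ => pairLaw) (X := fun _ x => x)
        (fun _ => measurable_id)
    have h2 := h1.indepFun_finset {n} (Finset.range n) (by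
      rw [Finset.disjoint_singleton_left]
      exact Finset.notMem_range_self) (fun i => measurable_pi_apply i)
    have h3 := h2.comp (φ := fun u : ({n} : Finset ℕ) → ℝ × Bool =>
        ENNReal.ofReal (u ⟨n, Finset.mem_singleton_self n⟩).1)
      (ψ := fun u : Finset.range n → ℝ × Bool =>
        (B (n / 7)).indicator (1 : Walk → ℝ≥0∞) (MeanBk.ext n u))
      ((measurable_fst.comp (measurable_pi_apply _)).ennreal_ofReal)
      (hf.comp (MeanBk.meas_ext n))
    have e : ((fun u : Finset.range n → ℝ × Bool =>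
        (B (n / 7)).indicator (1 : Walk → ℝ≥0∞) (MeanBk.ext n u)) ∘
        fun (v : Walk) (i : Finset.range n) => v i) =
        fun v : Walk => (B (n / 7)).indicator (1 : Walk → ℝ≥0∞) v := by
      funext v
      change (B (n / 7)).indicator (1 : Walk → ℝ≥0∞)
        (MeanBk.ext n fun i : Finset.range n => v i) = _
      by_cases hv : v ∈ B (n / 7)
      · rw [Set.indicator_of_mem hv, Set.indicator_of_mem ((ext_mem n v).2 hv)]
        rfl
      · rw [Set.indicator_of_notMem hv,
          Set.indicator_of_notMem (fun h => hv ((ext_mem n v).1 h))]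
    rw [e] at h3
    exact h3
  rw [lintegral_mul_eq_lintegral_mul_lintegral_of_indepFun'' hg.aemeasurable hf.aemeasurable hi,
    lintegral_indicator_one (measB _)]
  refine mul_le_mul_left ?_ _
  have h4 : ∫⁻ v, ENNReal.ofReal (v n).1 ∂walkLaw = ∫⁻ p, ENNReal.ofReal p.1 ∂pairLaw :=
    (measurePreserving_eval_infinitePi (fun _ : ℕ => pairLaw) n).lintegral_comp
      (f := fun p : ℝ × Bool => ENNReal.ofReal p.1) measurable_fst.ennreal_ofReal
  have h5 : ∫⁻ p, ENNReal.ofReal p.1 ∂pairLaw = ∫⁻ x, ENNReal.ofReal x ∂(expMeasure 1) :=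
    (measurePreserving_fst (μ := expMeasure 1) (ν := coin)).lintegral_comp
      ENNReal.measurable_ofReal
  rw [h4, h5]
  exact MeanBk.exp_mean

theorem geo (ρ : ℝ≥0∞) (n : ℕ) : ∑ i ∈ Finset.range (7 * n), ρ ^ (i / 7) =
    7 * ∑ j ∈ Finset.range n, ρ ^ j := by
  induction n with
  | zero => simp
  | succ n ih =>
    have e : 7 * (n + 1) = 7 * n + 1 + 1 + 1 + 1 + 1 + 1 + 1 := by ring
    have e0 : (7 * n) / 7 = n := by omega
    have e1 : (7 * n + 1) / 7 = n := by omega
    have e2 : (7 * n + 1 + 1) / 7 = n := by omega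
    have e3 : (7 * n + 1 + 1 + 1) / 7 = n := by omega
    have e4 : (7 * n + 1 + 1 + 1 + 1) / 7 = n := by omega
    have e5 : (7 * n + 1 + 1 + 1 + 1 + 1) / 7 = n := by omega
    have e6 : (7 * n + 1 + 1 + 1 + 1 + 1 + 1) / 7 = n := by omega
    rw [e]
    simp only [Finset.sum_range_succ]
    rw [ih, e0, e1, e2, e3, e4, e5, e6]
    ring

theorem sum_fin : ∑' n : ℕ, (1 - 2⁻¹ ^ 7 : ℝ≥0∞) ^ (n / 7) ≠ ∞ := by
  have hρ : (1 - 2⁻¹ ^ 7 : ℝ≥0∞) < 1 := by
    refine ENNReal.sub_lt_self ENNReal.one_ne_top one_ne_zero ?_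
    simp
  have h1 : ∑' n : ℕ, (1 - 2⁻¹ ^ 7 : ℝ≥0∞) ^ (n / 7) ≤ 7 * (1 - (1 - 2⁻¹ ^ 7 : ℝ≥0∞))⁻¹ := by
    refine ENNReal.tsum_le_of_sum_range_le fun n => ?_
    calc ∑ i ∈ Finset.range n, (1 - 2⁻¹ ^ 7 : ℝ≥0∞) ^ (i / 7) ≤
          ∑ i ∈ Finset.range (7 * n), (1 - 2⁻¹ ^ 7 : ℝ≥0∞) ^ (i / 7) :=
          Finset.sum_le_sum_of_subset (Finset.range_mono (by omega))
      _ = 7 * ∑ j ∈ Finset.range n, (1 - 2⁻¹ ^ 7 : ℝ≥0∞) ^ j := geo _ n
      _ ≤ 7 * ∑' j : ℕ, (1 - 2⁻¹ ^ 7 : ℝ≥0∞) ^ j := mul_le_mul_right (ENNReal.sum_le_tsum _) _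
      _ = 7 * (1 - (1 - 2⁻¹ ^ 7 : ℝ≥0∞))⁻¹ := by rw [ENNReal.tsum_geometric]
  refine ne_top_of_le_ne_top ?_ h1
  refine ENNReal.mul_ne_top (by norm_num) (ENNReal.inv_ne_top.2 ?_)
  exact (tsub_pos_of_lt hρ).ne'

/-- before the exit the walk is inside -/
theorem inside {w : Walk} {N : ℕ} (h : ∀ m < N, pos w m ≠ 1 ∧ pos w m ≠ -6) :
    ∀ m < N, -6 < pos w m ∧ pos w m < 1 := by
  intro m
  induction m with
  | zero => intro _; simp
  | succ m ih =>
    intro hm
    have h1 := ih (by omega)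
    have h2 := h (m + 1) hm
    rw [pos_succ] at h2 ⊢
    have h3 : stp (w m).2 = 1 ∨ stp (w m).2 = -1 := by cases (w m).2 <;> simp [stp]
    omega

theorem run {w : Walk} {j : ℕ} (h : ∀ i < 7, (w (7 * j + i)).2 = true) :
    ∀ i ≤ 7, pos w (7 * j + i) = pos w (7 * j) + i := by
  intro i
  induction i with
  | zero => intro _; simp
  | succ i ih =>
    intro hi
    have e : 7 * j + (i + 1) = (7 * j + i) + 1 := by ring
    rw [e, pos_succ, ih (by omega), h i (by omega)]
    simp [stp]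
    ring

/-- a block of seven jumps to the right leads out -/
theorem block {w : Walk} {N j : ℕ} (h : ∀ m < N, pos w m ≠ 1 ∧ pos w m ≠ -6)
    (hj : 7 * j + 7 < N + 1) (hb : ∀ i < 7, (w (7 * j + i)).2 = true) : False := by
  have h1 := inside h (7 * j) (by omega)
  obtain ⟨i, hi⟩ : ∃ i : ℕ, (i : ℤ) = 1 - pos w (7 * j) := ⟨(1 - pos w (7 * j)).toNat, by omega⟩
  have h2 := run hb i (by omega)
  exact (h (7 * j + i) (by omega)).1 (by omega)

theorem tim_le (w : Walk) (N : ℕ) : ENNReal.ofReal (tim w N) ≤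
    ∑ n ∈ Finset.range N, ENNReal.ofReal (w n).1 := by
  induction N with
  | zero => simp
  | succ N ih =>
    rw [tim_succ, Finset.sum_range_succ]
    exact ENNReal.ofReal_add_le.trans (add_le_add_left ih _)

theorem pointwise (w : Walk) (hw : ∑' n : ℕ, (B (n / 7)).indicator (1 : Walk → ℝ≥0∞) w < ∞) :
    min (hit w 1) (hit w (-6)) ≤
      ∑' n : ℕ, ENNReal.ofReal (w n).1 * (B (n / 7)).indicator 1 w := by
  have hex : ∃ n, ¬ (pos w n ≠ 1 ∧ pos w n ≠ -6) := by
    by_contra hcon
    push Not at hcon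
    refine hw.ne ?_
    have h1 : ∀ n : ℕ, (B (n / 7)).indicator (1 : Walk → ℝ≥0∞) w = 1 := by
      intro n
      refine Set.indicator_of_mem ?_ _
      intro j hj
      by_contra hc
      push Not at hc
      refine block (w := w) (N := 7 * j + 7) (j := j) (fun m _ => hcon m) (by omega) ?_
      intro i hi
      simpa using hc i hi
    simp only [h1]
    exact ENNReal.tsum_const_eq_top_of_ne_zero one_ne_zero
  classical
  have hn := Nat.find_spec hex
  have hmin : ∀ m < Nat.find hex, pos w m ≠ 1 ∧ pos w m ≠ -6 := fun m hm =>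
    not_not.1 (Nat.find_min hex hm)
  generalize Nat.find hex = N at hn hmin
  have h1 : min (hit w 1) (hit w (-6)) ≤ ENNReal.ofReal (tim w N) := by
    by_cases h : pos w N = 1
    · exact (min_le_left _ _).trans (hit_le h)
    · by_cases h' : pos w N = -6
      · exact (min_le_right _ _).trans (hit_le h')
      · exact absurd ⟨h, h'⟩ hn
  refine h1.trans ((tim_le w N).trans ?_)
  have h2 : ∑ n ∈ Finset.range N, ENNReal.ofReal (w n).1 =
      ∑ n ∈ Finset.range N, ENNReal.ofReal (w n).1 * (B (n / 7)).indicator 1 w := by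
    refine Finset.sum_congr rfl fun n hnN => ?_
    have hnN' := Finset.mem_range.1 hnN
    have hB : w ∈ B (n / 7) := by
      intro j hj
      by_contra hc
      push Not at hc
      refine block (w := w) (N := N) (j := j) hmin (by omega) ?_
      intro i hi
      simpa using hc i hi
    rw [Set.indicator_of_mem hB, Pi.one_apply, mul_one]
  rw [h2]
  exact ENNReal.sum_le_tsum _

end Exit_aux

open Exit_aux in
/-- The mean exit time of an interval is finite.

PROOF. Let `B n` be the event that none of the first `n` blocks of seven jumps consists of jumps to the right only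
(`walkLaw (B n) = (1 - 2^{-7})^n`). Up to the exit from `(-6, 1)` the walk is in `B (n / 7)`, as seven jumps to the right lead
out, and the holding time with index `n` is independent of `B (n / 7)`. -/
theorem exit_mean : ∫⁻ w, min (hit w 1) (hit w (-6)) ∂walkLaw ≠ ∞ := by
  have hmf : ∀ n : ℕ, Measurable fun w : Walk => (B (n / 7)).indicator (1 : Walk → ℝ≥0∞) w :=
    fun n => measurable_one.indicator (measB _)
  have hmg : ∀ n : ℕ, Measurable fun w : Walk => ENNReal.ofReal (w n).1 *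
      (B (n / 7)).indicator (1 : Walk → ℝ≥0∞) w := fun n =>
    (measurable_fst.comp (measurable_pi_apply n)).ennreal_ofReal.mul (hmf n)
  have hae : ∀ᵐ w ∂walkLaw, ∑' n : ℕ, (B (n / 7)).indicator (1 : Walk → ℝ≥0∞) w < ∞ := by
    refine ae_lt_top (Measurable.tsum fun n => hmf n) ?_
    rw [lintegral_tsum fun n => (hmf n).aemeasurable]
    refine ne_top_of_le_ne_top sum_fin (ENNReal.tsum_le_tsum fun n => ?_)
    rw [lintegral_indicator_one (measB _)]
    exact B_le _
  refine ne_top_of_le_ne_top ?_ (lintegral_mono_ae (hae.mono fun w hw => pointwise w hw))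
  rw [lintegral_tsum fun n => (hmg n).aemeasurable]
  have h1 : ∑' n : ℕ, ∫⁻ w, ENNReal.ofReal (w n).1 *
      (B (n / 7)).indicator (1 : Walk → ℝ≥0∞) w ∂walkLaw ≤
      ∑' n : ℕ, 4 * (1 - 2⁻¹ ^ 7 : ℝ≥0∞) ^ (n / 7) :=
    ENNReal.tsum_le_tsum fun n => (mean_ind n).trans (mul_le_mul_right (B_le _) _)
  refine ne_top_of_le_ne_top ?_ h1
  rw [ENNReal.tsum_mul_left]
  exact ENNReal.mul_ne_top (by norm_num) sum_fin

end H949.FK
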