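import Mathlib

set_option autoImplicit false

open Finset
open scoped ENNReal

namespace H949.FK

namespace Tile_aux

/-- Subadditivity: `a i n` is at most the sum of the one step values. -/
theorem sum_one (a : ℕ → ℕ → ℝ≥0∞) (h0 : ∀ i, a i 0 = 0)
    (hs : ∀ i j k, a i (j + k) ≤ a i j + a (i + j) k) (i n : ℕ) :
    a i n ≤ ∑ j ∈ Ico i (i + n), a j 1 := by
  induction n with
  | zero => rw [h0 i]; exact zero_le
  | succ n ih =>
    refine (hs i n 1).trans ?_
    rw [← add_assoc, Finset.sum_Ico_succ_top (Nat.le_add_right i n)]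
    exact add_le_add ih le_rfl

/-- The general statement, with absolute positions. -/
theorem gen (a : ℕ → ℕ → ℝ≥0∞) (h0 : ∀ i, a i 0 = 0)
    (hs : ∀ i j k, a i (j + k) ≤ a i j + a (i + j) k) (c : ℝ≥0∞) (M : ℕ) (bad : ℕ → ℝ≥0∞)
    (hbad : ∀ i, (∃ k, 1 ≤ k ∧ k ≤ M ∧ a i k ≤ c * k) ∨ bad i = a i 1) (n : ℕ) :
    ∀ i, a i n ≤ c * n + ∑ j ∈ Ico i (i + n), bad j +
      ∑ j ∈ Ico (i + (n - M)) (i + n), a j 1 := by
  induction n using Nat.strong_induction_on with
  | _ n ih =>
    intro i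
    rcases Nat.eq_zero_or_pos n with hn | hn
    · subst hn
      rw [h0 i]
      exact zero_le
    rcases hbad i with ⟨k, hk1, hkM, hk⟩ | hb
    · rcases le_or_gt k n with hkn | hkn
      · -- use the good block
        obtain ⟨m, rfl⟩ : ∃ m, n = k + m := ⟨n - k, by omega⟩
        have h1 := hs i k m
        have h2 := ih m (by omega) (i + k)
        have e1 : i + k + m = i + (k + m) := by omega
        rw [e1] at h2
        have h3 : ∑ j ∈ Ico (i + k) (i + (k + m)), bad j ≤ ∑ j ∈ Ico i (i + (k + m)), bad j :=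
          Finset.sum_le_sum_of_subset (Finset.Ico_subset_Ico (by omega) le_rfl)
        have h4 : ∑ j ∈ Ico (i + k + (m - M)) (i + (k + m)), a j 1 ≤
            ∑ j ∈ Ico (i + (k + m - M)) (i + (k + m)), a j 1 :=
          Finset.sum_le_sum_of_subset (Finset.Ico_subset_Ico (by omega) le_rfl)
        have h5 : c * ((k + m : ℕ) : ℝ≥0∞) = c * k + c * m := by
          rw [Nat.cast_add, mul_add]
        calc a i (k + m) ≤ a i k + a (i + k) m := h1
          _ ≤ c * k + (c * m + ∑ j ∈ Ico i (i + (k + m)), bad j +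
              ∑ j ∈ Ico (i + (k + m - M)) (i + (k + m)), a j 1) :=
            add_le_add hk (h2.trans (add_le_add (add_le_add le_rfl h3) h4))
          _ = c * ((k + m : ℕ) : ℝ≥0∞) + ∑ j ∈ Ico i (i + (k + m)), bad j +
              ∑ j ∈ Ico (i + (k + m - M)) (i + (k + m)), a j 1 := by
            rw [h5, add_assoc, add_assoc, add_assoc]
      · -- the block is longer than `n`
        have e : n - M = 0 := by omega
        rw [e, add_zero]
        exact (sum_one a h0 hs i n).trans le_add_self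
    · -- bad position
      obtain ⟨m, rfl⟩ : ∃ m, n = 1 + m := ⟨n - 1, by omega⟩
      have h1 := hs i 1 m
      have h2 := ih m (by omega) (i + 1)
      have e1 : i + 1 + m = i + (1 + m) := by omega
      rw [e1] at h2
      have h3 : ∑ j ∈ Ico i (i + (1 + m)), bad j =
          a i 1 + ∑ j ∈ Ico (i + 1) (i + (1 + m)), bad j := by
        rw [Finset.sum_eq_sum_Ico_succ_bot (by omega : i < i + (1 + m)), hb]
      have h4 : ∑ j ∈ Ico (i + 1 + (m - M)) (i + (1 + m)), a j 1 ≤
          ∑ j ∈ Ico (i + (1 + m - M)) (i + (1 + m)), a j 1 :=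
        Finset.sum_le_sum_of_subset (Finset.Ico_subset_Ico (by omega) le_rfl)
      have h5 : c * (m : ℝ≥0∞) ≤ c * ((1 + m : ℕ) : ℝ≥0∞) := by
        gcongr
        omega
      calc a i (1 + m) ≤ a i 1 + a (i + 1) m := h1
        _ ≤ a i 1 + (c * ((1 + m : ℕ) : ℝ≥0∞) + ∑ j ∈ Ico (i + 1) (i + (1 + m)), bad j +
            ∑ j ∈ Ico (i + (1 + m - M)) (i + (1 + m)), a j 1) :=
          add_le_add le_rfl (h2.trans (add_le_add (add_le_add h5 le_rfl) h4))
        _ = c * ((1 + m : ℕ) : ℝ≥0∞) + ∑ j ∈ Ico i (i + (1 + m)), bad j +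
            ∑ j ∈ Ico (i + (1 + m - M)) (i + (1 + m)), a j 1 := by
          rw [h3]
          ring

end Tile_aux

open Classical in
/-- Deterministic tiling lemma (as in the proof of Katznelson and Weiss).

PROOF. Show more generally, for all `i` and `n`, by strong induction on `n`:
`a i n ≤ c n + ∑_{j<n} bad (i+j) + ∑_{n-M ≤ j < n} a (i+j) 1`. For `n = 0` use `h0`. If `i` is not bad, take `k` with
`1 ≤ k ≤ M`, `a i k ≤ c k`. If `k ≤ n` then `a i n ≤ a i k + a (i+k) (n-k)` and the induction hypothesis for `i+k`,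
`n-k` (its last sum is over a part of the absolute positions `[i + (n-M), i + n)`, because `(n-k-M)+k ≥ n-M`). If
`k > n` then `n < M`, the last sum is over all `j < n`, and `a i n ≤ ∑_{j<n} a (i+j) 1` by subadditivity. If `i`
is bad, `a i n ≤ a i 1 + a (i+1) (n-1)` and the induction hypothesis. -/
theorem tiling (a : ℕ → ℕ → ℝ≥0∞) (h0 : ∀ i, a i 0 = 0)
    (hs : ∀ i j k, a i (j + k) ≤ a i j + a (i + j) k) (c : ℝ≥0∞) (M : ℕ) (n : ℕ) :
    a 0 n ≤ c * n + ∑ i ∈ range n, (if ∃ k, 1 ≤ k ∧ k ≤ M ∧ a i k ≤ c * k then 0 else a i 1) +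
      ∑ i ∈ Ico (n - M) n, a i 1 := by
  have h := Tile_aux.gen a h0 hs c M
    (fun i => if ∃ k, 1 ≤ k ∧ k ≤ M ∧ a i k ≤ c * k then 0 else a i 1)
    (fun i => by
      by_cases hb : ∃ k, 1 ≤ k ∧ k ≤ M ∧ a i k ≤ c * k
      · exact Or.inl hb
      · exact Or.inr (if_neg hb)) n 0
  rw [zero_add, zero_add, ← Finset.range_eq_Ico] at h
  exact h

end H949.FK
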