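import Mathlib
import Pool.Agent.H949.FK.Tile

set_option autoImplicit false

open MeasureTheory Filter Topology
open scoped ENNReal

namespace H949.FK

namespace Low_aux

open Classical in
/-- the bad part -/
noncomputable def bd {Ω : Type*} (T : ℕ → Ω → ℝ≥0∞) (c : ℝ≥0∞) (M : ℕ) (ω : Ω) : ℝ≥0∞ :=
  if ∃ k, 1 ≤ k ∧ k ≤ M ∧ T k ω ≤ c * k then 0 else T 1 ω

theorem bd_le {Ω : Type*} (T : ℕ → Ω → ℝ≥0∞) (c : ℝ≥0∞) (M : ℕ) (ω : Ω) : bd T c M ω ≤ T 1 ω := by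
  unfold bd
  split_ifs
  · exact zero_le
  · exact le_rfl

theorem bd_meas {Ω : Type*} [MeasurableSpace Ω] (T : ℕ → Ω → ℝ≥0∞) (hm : ∀ n, Measurable (T n))
    (c : ℝ≥0∞) (M : ℕ) : Measurable (bd T c M) := by
  have h : MeasurableSet {ω | ∃ k, 1 ≤ k ∧ k ≤ M ∧ T k ω ≤ c * k} := by
    have e : {ω | ∃ k, 1 ≤ k ∧ k ≤ M ∧ T k ω ≤ c * k} =
        ⋃ k : ℕ, {ω | 1 ≤ k ∧ k ≤ M ∧ T k ω ≤ c * k} := by
      ext ω
      simp
    rw [e]
    refine MeasurableSet.iUnion fun k => ?_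
    exact (MeasurableSet.const _).inter ((MeasurableSet.const _).inter
      (measurableSet_le (hm k) measurable_const))
  exact Measurable.ite h measurable_const (hm 1)

theorem bd_lim {Ω : Type*} (T : ℕ → Ω → ℝ≥0∞) (c : ℝ≥0∞) (ω : Ω)
    (h : ∃ k : ℕ, 1 ≤ k ∧ T k ω ≤ c * k) : Tendsto (fun M => bd T c M ω) atTop (𝓝 0) := by
  obtain ⟨k, h1, h2⟩ := h
  refine tendsto_const_nhds.congr' ?_
  filter_upwards [eventually_ge_atTop k] with M hM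
  unfold bd
  rw [if_pos ⟨k, h1, hM, h2⟩]

theorem tile {Ω : Type*} {θ : Ω → Ω} (T : ℕ → Ω → ℝ≥0∞) (h0 : ∀ ω, T 0 ω = 0)
    (hs : ∀ j k ω, T (j + k) ω ≤ T j ω + T k (θ^[j] ω)) (c : ℝ≥0∞) (M n : ℕ) (ω : Ω) :
    T n ω ≤ c * n + ∑ i ∈ Finset.range n, bd T c M (θ^[i] ω) +
      ∑ i ∈ Finset.Ico (n - M) n, T 1 (θ^[i] ω) := by
  have h := tiling (fun i k => T k (θ^[i] ω)) (fun i => h0 _) (fun i j k => by
    have h1 := hs j k (θ^[i] ω)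
    rw [← Function.iterate_add_apply, add_comm j i] at h1
    exact h1) c M n
  exact h

theorem integ {Ω : Type*} [MeasurableSpace Ω] {P : Measure Ω} [IsProbabilityMeasure P] {θ : Ω → Ω}
    (hθ : MeasurePreserving θ P P) (T : ℕ → Ω → ℝ≥0∞) (hm : ∀ n, Measurable (T n)) (h0 : ∀ ω, T 0 ω = 0)
    (hs : ∀ j k ω, T (j + k) ω ≤ T j ω + T k (θ^[j] ω)) (c : ℝ≥0∞) (M n : ℕ) :
    ∫⁻ ω, T n ω ∂P ≤ c * n + n * ∫⁻ ω, bd T c M ω ∂P + M * ∫⁻ ω, T 1 ω ∂P := by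
  have hb := bd_meas T hm c M
  have hi : ∀ i, Measurable (θ^[i]) := fun i => (hθ.iterate i).measurable
  have e1 : ∀ i, ∫⁻ ω, bd T c M (θ^[i] ω) ∂P = ∫⁻ ω, bd T c M ω ∂P := fun i =>
    (hθ.iterate i).lintegral_comp hb
  have e2 : ∀ i, ∫⁻ ω, T 1 (θ^[i] ω) ∂P = ∫⁻ ω, T 1 ω ∂P := fun i =>
    (hθ.iterate i).lintegral_comp (hm 1)
  have m1 : Measurable fun ω => ∑ i ∈ Finset.range n, bd T c M (θ^[i] ω) :=
    Finset.measurable_fun_sum _ fun i _ => hb.comp (hi i)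
  have m2 : Measurable fun ω => ∑ i ∈ Finset.Ico (n - M) n, T 1 (θ^[i] ω) :=
    Finset.measurable_fun_sum _ fun i _ => (hm 1).comp (hi i)
  have i1 : ∫⁻ ω, ∑ i ∈ Finset.range n, bd T c M (θ^[i] ω) ∂P =
      ∑ i ∈ Finset.range n, ∫⁻ ω, bd T c M (θ^[i] ω) ∂P :=
    lintegral_finsetSum _ fun i _ => hb.comp (hi i)
  have i2 : ∫⁻ ω, ∑ i ∈ Finset.Ico (n - M) n, T 1 (θ^[i] ω) ∂P =
      ∑ i ∈ Finset.Ico (n - M) n, ∫⁻ ω, T 1 (θ^[i] ω) ∂P :=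
    lintegral_finsetSum _ fun i _ => (hm 1).comp (hi i)
  refine (lintegral_mono fun ω => tile T h0 hs c M n ω).trans ?_
  rw [lintegral_add_right _ m2, lintegral_add_right _ m1, lintegral_const, measure_univ, mul_one,
    i1, i2]
  simp only [e1, e2, Finset.sum_const, Finset.card_range, Nat.card_Ico, nsmul_eq_mul]
  refine add_le_add le_rfl (mul_le_mul_left ?_ _)
  exact_mod_cast (by omega : n - (n - M) ≤ M)

theorem div_bound {c b I J : ℝ≥0∞} {M n : ℕ} (hn : 1 ≤ n) (h : J ≤ c * n + n * b + M * I) :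
    J / n ≤ c + b + M * I / n := by
  have hn0 : (n : ℝ≥0∞) ≠ 0 := by
    simp only [ne_eq, Nat.cast_eq_zero]
    omega
  have hnt : (n : ℝ≥0∞) ≠ ∞ := ENNReal.natCast_ne_top n
  refine (ENNReal.div_le_div_right h _).trans (le_of_eq ?_)
  rw [ENNReal.add_div, ENNReal.add_div, mul_comm (n : ℝ≥0∞) b,
    ENNReal.mul_div_cancel_right hn0 hnt, ENNReal.mul_div_cancel_right hn0 hnt]

end Low_aux

/-- Lower bound in Kingman's theorem: if almost surely `T k ≤ c k` for some `k ≥ 1`, then `inf E T_n / n ≤ c`.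

PROOF. May assume `c ≠ ∞`. For every `M` put `D_M = {ω | ∃ k, 1 ≤ k ≤ M, T k ω ≤ c k}` (measurable). The lemma `tiling` with
`a i k = T k (θ^[i] ω)` and integration (`θ^[i]` preserves the measure) give, with `b_M = ∫⁻ T_1 1_{D_M^c}`,
`∫⁻ T_n ≤ c n + n b_M + M ∫⁻ T_1` (the interval `Ico (n-M) n` has at most `M` elements). Divide by `n ≥ 1`:
`inf ≤ c + b_M + M ∫⁻ T_1 / n` for all `n`; let `n → ∞`: `inf ≤ c + b_M`. Let `M → ∞`: the `D_M` increase to a set of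
full measure, so `b_M → 0` by dominated convergence (`∫⁻ T_1` is finite). -/
theorem low {Ω : Type*} [MeasurableSpace Ω] {P : Measure Ω} [IsProbabilityMeasure P] {θ : Ω → Ω}
    (hθ : MeasurePreserving θ P P) (T : ℕ → Ω → ℝ≥0∞) (hm : ∀ n, Measurable (T n)) (h0 : ∀ ω, T 0 ω = 0)
    (hs : ∀ j k ω, T (j + k) ω ≤ T j ω + T k (θ^[j] ω)) (h1 : ∫⁻ ω, T 1 ω ∂P ≠ ∞) (c : ℝ≥0∞)
    (hc : ∀ᵐ ω ∂P, ∃ k : ℕ, 1 ≤ k ∧ T k ω ≤ c * k) :
    ⨅ (n : ℕ) (_ : 1 ≤ n), (∫⁻ ω, T n ω ∂P) / n ≤ c := by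
  have hM : ∀ M : ℕ, ⨅ (n : ℕ) (_ : 1 ≤ n), (∫⁻ ω, T n ω ∂P) / n ≤
      c + ∫⁻ ω, Low_aux.bd T c M ω ∂P := by
    intro M
    have hlim : Tendsto (fun n : ℕ => c + ∫⁻ ω, Low_aux.bd T c M ω ∂P +
        M * (∫⁻ ω, T 1 ω ∂P) / n) atTop (𝓝 (c + ∫⁻ ω, Low_aux.bd T c M ω ∂P + 0)) := by
      refine Tendsto.add tendsto_const_nhds ?_
      have h := ENNReal.Tendsto.const_div (a := M * (∫⁻ ω, T 1 ω ∂P)) (b := ∞)
        ENNReal.tendsto_nat_nhds_top (Or.inr (ENNReal.mul_ne_top (ENNReal.natCast_ne_top M) h1))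
      rwa [ENNReal.div_top] at h
    rw [add_zero] at hlim
    refine ge_of_tendsto hlim ?_
    filter_upwards [eventually_ge_atTop 1] with n hn
    refine (iInf₂_le n hn).trans ?_
    exact Low_aux.div_bound hn (Low_aux.integ hθ T hm h0 hs c M n)
  have hb : Tendsto (fun M : ℕ => ∫⁻ ω, Low_aux.bd T c M ω ∂P) atTop (𝓝 (∫⁻ _, 0 ∂P)) := by
    refine tendsto_lintegral_of_dominated_convergence (T 1) (fun M => Low_aux.bd_meas T hm c M)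
      (fun M => Eventually.of_forall fun ω => Low_aux.bd_le T c M ω) h1 ?_
    filter_upwards [hc] with ω hω
    exact Low_aux.bd_lim T c ω hω
  rw [lintegral_zero] at hb
  have h2 : Tendsto (fun M : ℕ => c + ∫⁻ ω, Low_aux.bd T c M ω ∂P) atTop (𝓝 (c + 0)) :=
    Tendsto.add tendsto_const_nhds hb
  rw [add_zero] at h2
  exact ge_of_tendsto' h2 hM

end H949.FK
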