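import Mathlib
import Pool.Agent.H949.FK.Bir
import Pool.Agent.H949.FK.Low

set_option autoImplicit false

open MeasureTheory Filter Topology
open scoped ENNReal

namespace H949.FK

namespace King_aux

/-- The multiples of `m` below `n` fill the interval, asymptotically. -/
theorem tends_one (m : ℕ) (hm : 1 ≤ m) :
    Tendsto (fun n : ℕ => ((m * (n / m) : ℕ) : ℝ≥0∞) / n) atTop (𝓝 1) := by
  have h0 : Tendsto (fun n : ℕ => (m : ℝ≥0∞) / n) atTop (𝓝 0) := by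
    have := ENNReal.Tendsto.const_div (a := (m : ℝ≥0∞)) ENNReal.tendsto_nat_nhds_top
      (Or.inr (ENNReal.natCast_ne_top m))
    simpa using this
  have h1 : Tendsto (fun n : ℕ => (1 : ℝ≥0∞) - (m : ℝ≥0∞) / n) atTop (𝓝 1) := by
    have := ENNReal.Tendsto.sub (tendsto_const_nhds (x := (1 : ℝ≥0∞)) (f := atTop)) h0
      (Or.inl ENNReal.one_ne_top)
    simpa using this
  refine tendsto_of_tendsto_of_tendsto_of_le_of_le' h1 tendsto_const_nhds ?_ ?_
  · filter_upwards [eventually_ge_atTop 1] with n hn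
    rw [tsub_le_iff_right, ENNReal.div_add_div_same]
    have hn0 : (n : ℝ≥0∞) ≠ 0 := by
      simp only [ne_eq, Nat.cast_eq_zero]
      omega
    rw [ENNReal.le_div_iff_mul_le (Or.inl hn0) (Or.inl (ENNReal.natCast_ne_top n)), one_mul]
    have : n ≤ m * (n / m) + m := by
      have h2 := Nat.div_add_mod n m
      have h3 := Nat.mod_lt n hm
      omega
    exact_mod_cast this
  · filter_upwards with n
    refine ENNReal.div_le_of_le_mul ?_
    rw [one_mul]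
    exact_mod_cast Nat.mul_div_le n m

theorem tends_mul_div (m : ℕ) (hm : 1 ≤ m) : Tendsto (fun n : ℕ => m * (n / m)) atTop atTop := by
  refine tendsto_atTop_atTop.mpr fun b => ⟨m * b, fun n hn => ?_⟩
  have h1 : b ≤ n / m := by
    rw [Nat.le_div_iff_mul_le hm, mul_comm]
    exact hn
  calc b ≤ 1 * (n / m) := by rw [one_mul]; exact h1
    _ ≤ m * (n / m) := Nat.mul_le_mul_right _ hm

theorem tends_div (m : ℕ) (hm : 1 ≤ m) : Tendsto (fun n : ℕ => n / m) atTop atTop := by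
  refine tendsto_atTop_atTop.mpr fun b => ⟨m * b, fun n hn => ?_⟩
  rw [Nat.le_div_iff_mul_le hm, mul_comm]
  exact hn

/-- The deterministic part. -/
theorem det (u v t : ℕ → ℝ≥0∞) (m : ℕ) (hm : 1 ≤ m) (A B : ℝ≥0∞) (hA : A ≠ ∞)
    (hU : Tendsto (fun n : ℕ => (∑ j ∈ Finset.range n, u j) / n) atTop (𝓝 A))
    (hV : Tendsto (fun k : ℕ => (∑ j ∈ Finset.range k, v j) / k) atTop (𝓝 B))
    (ht : ∀ k r : ℕ, t (m * k + r) ≤
      ∑ j ∈ Finset.range k, v j + ∑ i ∈ Finset.range r, u (m * k + i)) :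
    limsup (fun n : ℕ => t n / n) atTop ≤ B / m := by
  have hm0 : (m : ℝ≥0∞) ≠ 0 := by
    simp only [ne_eq, Nat.cast_eq_zero]
    omega
  have hmt : (m : ℝ≥0∞) ≠ ∞ := ENNReal.natCast_ne_top m
  set U : ℕ → ℝ≥0∞ := fun n => ∑ j ∈ Finset.range n, u j with hUdef
  set V : ℕ → ℝ≥0∞ := fun n => ∑ j ∈ Finset.range n, v j with hVdef
  set R : ℕ → ℝ≥0∞ := fun n => ∑ i ∈ Finset.range (n % m), u (m * (n / m) + i) with hRdef
  have hUR : ∀ n, U n = U (m * (n / m)) + R n := by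
    intro n
    have h1 : n = m * (n / m) + n % m := (Nat.div_add_mod n m).symm
    calc U n = U (m * (n / m) + n % m) := by rw [← h1]
      _ = U (m * (n / m)) + R n := Finset.sum_range_add _ _ _
  have h1 : Tendsto (fun n : ℕ => U (m * (n / m)) / ((m * (n / m) : ℕ) : ℝ≥0∞)) atTop (𝓝 A) :=
    hU.comp (tends_mul_div m hm)
  have h2 : Tendsto (fun n : ℕ => U (m * (n / m)) / n) atTop (𝓝 A) := by
    have h3 := ENNReal.Tendsto.mul h1 (Or.inr ENNReal.one_ne_top) (tends_one m hm)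
      (Or.inl one_ne_zero)
    rw [mul_one] at h3
    refine h3.congr' ?_
    filter_upwards [(tends_mul_div m hm).eventually (eventually_ge_atTop 1)] with n hn
    have hk0 : ((m * (n / m) : ℕ) : ℝ≥0∞) ≠ 0 := by
      simp only [ne_eq, Nat.cast_eq_zero]
      omega
    have hkt : ((m * (n / m) : ℕ) : ℝ≥0∞) ≠ ∞ := ENNReal.natCast_ne_top _
    rw [div_eq_mul_inv, div_eq_mul_inv, div_eq_mul_inv, mul_assoc, ← mul_assoc _ _ (n : ℝ≥0∞)⁻¹,
      ENNReal.inv_mul_cancel hk0 hkt, one_mul]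
  have h4 : Tendsto (fun n : ℕ => R n / n) atTop (𝓝 0) := by
    have h5 := ENNReal.Tendsto.sub hU h2 (Or.inl hA)
    rw [tsub_self] at h5
    refine h5.congr' ?_
    have h6 : ∀ᶠ n : ℕ in atTop, U (m * (n / m)) / n < ∞ :=
      h2.eventually (gt_mem_nhds (lt_top_iff_ne_top.mpr hA))
    filter_upwards [h6] with n hn
    change U n / n - U (m * (n / m)) / n = R n / n
    rw [hUR n, ENNReal.add_div]
    exact ENNReal.add_sub_cancel_left hn.ne
  have h7 : Tendsto (fun n : ℕ => V (n / m) / ((n / m : ℕ) : ℝ≥0∞) / m + R n / n) atTop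
      (𝓝 (B / m + 0)) :=
    (ENNReal.Tendsto.div_const (hV.comp (tends_div m hm)) (Or.inr hm0)).add h4
  rw [add_zero] at h7
  rw [← h7.limsup_eq]
  refine limsup_le_limsup ?_
  filter_upwards with n
  have h8 : t n ≤ V (n / m) + R n := by
    have := ht (n / m) (n % m)
    rwa [Nat.div_add_mod] at this
  have h9 : V (n / m) / n ≤ V (n / m) / ((n / m : ℕ) : ℝ≥0∞) / m := by
    have h10 : V (n / m) / ((n / m : ℕ) : ℝ≥0∞) / m = V (n / m) / ((n / m * m : ℕ) : ℝ≥0∞) := by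
      rw [div_eq_mul_inv, div_eq_mul_inv, div_eq_mul_inv, Nat.cast_mul,
        ENNReal.mul_inv (Or.inr hmt) (Or.inr hm0), mul_assoc]
    rw [h10]
    refine ENNReal.div_le_div_left ?_ _
    exact_mod_cast Nat.div_mul_le_self n m
  calc t n / n ≤ (V (n / m) + R n) / n := ENNReal.div_le_div_right h8 _
    _ = V (n / m) / n + R n / n := ENNReal.add_div
    _ ≤ _ := add_le_add_left h9 _

theorem sub1 {Ω : Type*} {θ : Ω → Ω} (T : ℕ → Ω → ℝ≥0∞)
    (hs : ∀ j k ω, T (j + k) ω ≤ T j ω + T k (θ^[j] ω)) (ω : Ω) (q r : ℕ) :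
    T (q + r) ω ≤ T q ω + ∑ i ∈ Finset.range r, T 1 (θ^[q + i] ω) := by
  induction r with
  | zero => simp
  | succ r ih =>
    rw [Finset.sum_range_succ, ← add_assoc, ← add_assoc]
    exact (hs (q + r) 1 ω).trans (add_le_add_left ih _)

theorem sub2 {Ω : Type*} {θ : Ω → Ω} (T : ℕ → Ω → ℝ≥0∞) (h0 : ∀ ω, T 0 ω = 0)
    (hs : ∀ j k ω, T (j + k) ω ≤ T j ω + T k (θ^[j] ω)) (ω : Ω) (m k : ℕ) :
    T (m * k) ω ≤ ∑ j ∈ Finset.range k, T m ((θ^[m])^[j] ω) := by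
  induction k with
  | zero => simp [h0]
  | succ k ih =>
    rw [Finset.sum_range_succ, Nat.mul_succ]
    refine (hs (m * k) m ω).trans ?_
    rw [← Function.iterate_mul]
    exact add_le_add_left ih _

theorem fin {Ω : Type*} [MeasurableSpace Ω] {P : Measure Ω} {θ : Ω → Ω}
    (hθ : MeasurePreserving θ P P) (T : ℕ → Ω → ℝ≥0∞) (hm : ∀ n, Measurable (T n))
    (h0 : ∀ ω, T 0 ω = 0)
    (hs : ∀ j k ω, T (j + k) ω ≤ T j ω + T k (θ^[j] ω)) (h1 : ∫⁻ ω, T 1 ω ∂P ≠ ∞) (n : ℕ) :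
    ∫⁻ ω, T n ω ∂P ≠ ∞ := by
  induction n with
  | zero => simp [h0]
  | succ n ih =>
    have h2 : ∫⁻ ω, T (n + 1) ω ∂P ≤ ∫⁻ ω, (T n ω + T 1 (θ^[n] ω)) ∂P :=
      lintegral_mono fun ω => hs n 1 ω
    rw [lintegral_add_left (hm n), (hθ.iterate n).lintegral_comp (hm 1)] at h2
    exact ne_top_of_le_ne_top (ENNReal.add_ne_top.mpr ⟨ih, h1⟩) h2

end King_aux

/-- Upper bound. PROOF. Fix `m ≥ 1`. `T (k m + r) ω ≤ ∑_{j<k} T m (θ^[m j] ω) + ∑_{r' < m} T 1 (θ^[k m + r'] ω)` for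
`r < m` (subadditivity). By `bir` for `θ^[m]` and `T m` (whose integral is at most `m ∫⁻ T 1`, finite) the first sum divided
by `k` tends to `∫⁻ T m`; by `bir` for `θ` and `T 1`, the sums `∑_{j<n} T 1 (θ^[j] ω)` divided by `n` converge to a
finite limit, so `T 1 (θ^[n] ω) / n → 0` and the second sum divided by `k m` tends to `0`. Hence
`limsup T n / n ≤ (∫⁻ T m) / m` almost surely, for every `m ≥ 1`. -/
theorem king_up {Ω : Type*} [MeasurableSpace Ω] {P : Measure Ω} [IsProbabilityMeasure P] {θ : Ω → Ω}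
    (hθ : ∀ m : ℕ, 1 ≤ m → Ergodic (θ^[m]) P) (T : ℕ → Ω → ℝ≥0∞) (hm : ∀ n, Measurable (T n))
    (h0 : ∀ ω, T 0 ω = 0)
    (hs : ∀ j k ω, T (j + k) ω ≤ T j ω + T k (θ^[j] ω)) (h1 : ∫⁻ ω, T 1 ω ∂P ≠ ∞) :
    ∀ᵐ ω ∂P, limsup (fun n : ℕ => T n ω / n) atTop ≤ ⨅ (n : ℕ) (_ : 1 ≤ n), (∫⁻ ω, T n ω ∂P) / n := by
  have hθ1 : Ergodic θ P := by simpa using hθ 1 le_rfl
  have key : ∀ m : ℕ, 1 ≤ m →
      ∀ᵐ ω ∂P, limsup (fun n : ℕ => T n ω / n) atTop ≤ (∫⁻ ω, T m ω ∂P) / m := by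
    intro m hm1
    have hf := King_aux.fin hθ1.toMeasurePreserving T hm h0 hs h1 m
    filter_upwards [bir (hθ m hm1) (hm m) hf, bir hθ1 (hm 1) h1] with ω hV hU
    refine King_aux.det (fun j => T 1 (θ^[j] ω)) (fun j => T m ((θ^[m])^[j] ω)) (fun n => T n ω)
      m hm1 _ _ h1 hU hV ?_
    intro k r
    exact (King_aux.sub1 T hs ω (m * k) r).trans
      (add_le_add_left (King_aux.sub2 T h0 hs ω m k) _)
  have hall : ∀ᵐ ω ∂P, ∀ m : ℕ, 1 ≤ m →
      limsup (fun n : ℕ => T n ω / n) atTop ≤ (∫⁻ ω, T m ω ∂P) / m := by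
    rw [ae_all_iff]
    intro m
    by_cases hm1 : 1 ≤ m
    · filter_upwards [key m hm1] with ω hω _
      exact hω
    · exact Filter.Eventually.of_forall fun ω h => absurd h hm1
  filter_upwards [hall] with ω hω
  exact le_iInf₂ hω

namespace King_aux

theorem shift_le {Ω : Type*} (θ : Ω → Ω) (T : ℕ → Ω → ℝ≥0∞)
    (hs : ∀ j k ω, T (j + k) ω ≤ T j ω + T k (θ^[j] ω)) (ω : Ω) (h : T 1 ω ≠ ∞) :
    liminf (fun n : ℕ => T n ω / n) atTop ≤ liminf (fun n : ℕ => T n (θ ω) / n) atTop := by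
  have h0 : Tendsto (fun n : ℕ => T 1 ω / ((n + 1 : ℕ) : ℝ≥0∞)) atTop (𝓝 0) := by
    have e1 := ENNReal.Tendsto.const_mul (a := T 1 ω) (ENNReal.tendsto_inv_nat_nhds_zero)
      (Or.inr h)
    rw [mul_zero] at e1
    have e2 := e1.comp (tendsto_add_atTop_nat 1)
    refine e2.congr fun n => ?_
    rw [Function.comp_apply, ENNReal.div_eq_inv_mul, mul_comm]
  rw [← liminf_nat_add (fun n : ℕ => T n ω / n) 1]
  have h1 := ENNReal.liminf_add_of_right_tendsto_zero h0 (fun n : ℕ => T n (θ ω) / n)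
  rw [← h1]
  refine liminf_le_liminf ?_
  filter_upwards [eventually_ge_atTop 1] with n hn
  rw [Pi.add_apply]
  have h2 : T (n + 1) ω ≤ T n (θ ω) + T 1 ω := by
    rw [add_comm n 1, add_comm (T n (θ ω))]
    have := hs 1 n ω
    rwa [Function.iterate_one] at this
  calc T (n + 1) ω / ((n + 1 : ℕ) : ℝ≥0∞)
      ≤ (T n (θ ω) + T 1 ω) / ((n + 1 : ℕ) : ℝ≥0∞) := ENNReal.div_le_div_right h2 _
    _ = T n (θ ω) / ((n + 1 : ℕ) : ℝ≥0∞) + T 1 ω / ((n + 1 : ℕ) : ℝ≥0∞) := ENNReal.add_div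
    _ ≤ T n (θ ω) / n + T 1 ω / ((n + 1 : ℕ) : ℝ≥0∞) := by
      refine add_le_add ?_ le_rfl
      refine ENNReal.div_le_div_left ?_ _
      exact_mod_cast Nat.le_succ n

theorem exists_le (a : ℕ → ℝ≥0∞) (c c' : ℝ≥0∞) (hc : c < c')
    (h : liminf (fun n : ℕ => a n / n) atTop ≤ c) : ∃ k : ℕ, 1 ≤ k ∧ a k ≤ c' * k := by
  have h1 := frequently_lt_of_liminf_lt (by isBoundedDefault) (h.trans_lt hc)
  obtain ⟨k, hk, hk1⟩ := (h1.and_eventually (eventually_ge_atTop 1)).exists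
  refine ⟨k, hk1, ?_⟩
  have hk0 : (k : ℝ≥0∞) ≠ 0 := by
    exact_mod_cast (by omega : k ≠ 0)
  exact (ENNReal.div_le_iff hk0 (ENNReal.natCast_ne_top k)).1 hk.le

end King_aux

/-- Lower bound. PROOF. `f ω = liminf T n ω / n` is measurable, and `T (n+1) ω ≤ T 1 ω + T n (θ ω)` gives `f ω ≤ f (θ ω)` when
`T 1 ω < ∞`, so almost surely. So for each `x` the set `{f > x}` is almost contained in its preimage under `θ`, has
measure `0` or `1` (`Ergodic.ae_empty_or_univ_of_ae_le_preimage'` or its variants), and `f` is almost surely equal to a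
constant `c₀`. If `c₀ < γ` (the infimum), take `c₀ < c < γ`. Almost surely some `k ≥ 1` has `T k ω / k ≤ c`, i.e.
`T k ω ≤ c k`; by `low`, `γ ≤ c`, a contradiction. -/
theorem king_low {Ω : Type*} [MeasurableSpace Ω] {P : Measure Ω} [IsProbabilityMeasure P] {θ : Ω → Ω}
    (hθ : Ergodic θ P) (T : ℕ → Ω → ℝ≥0∞) (hm : ∀ n, Measurable (T n))
    (h0 : ∀ ω, T 0 ω = 0)
    (hs : ∀ j k ω, T (j + k) ω ≤ T j ω + T k (θ^[j] ω)) (h1 : ∫⁻ ω, T 1 ω ∂P ≠ ∞) :
    ∀ᵐ ω ∂P, ⨅ (n : ℕ) (_ : 1 ≤ n), (∫⁻ ω, T n ω ∂P) / n ≤ liminf (fun n : ℕ => T n ω / n) atTop := by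
  have hmf : Measurable (fun ω => liminf (fun n : ℕ => T n ω / n) atTop) :=
    Measurable.liminf fun n => (hm n).div_const _
  have hfin : ∀ᵐ ω ∂P, T 1 ω ≠ ∞ := by
    filter_upwards [ae_lt_top (hm 1) h1] with ω h
    exact h.ne
  have key : ∀ c : ℝ≥0∞, c < ⨅ (n : ℕ) (_ : 1 ≤ n), (∫⁻ ω, T n ω ∂P) / n →
      ∀ᵐ ω ∂P, c < liminf (fun n : ℕ => T n ω / n) atTop := by
    intro c hc
    obtain ⟨c', hc1, hc2⟩ := exists_between hc
    have hA : MeasurableSet {ω | c < liminf (fun n : ℕ => T n ω / n) atTop} :=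
      measurableSet_lt measurable_const hmf
    have hle : {ω | c < liminf (fun n : ℕ => T n ω / n) atTop} ≤ᵐ[P]
        θ ⁻¹' {ω | c < liminf (fun n : ℕ => T n ω / n) atTop} := by
      filter_upwards [hfin] with ω h h2
      exact lt_of_lt_of_le h2 (King_aux.shift_le θ T hs ω h)
    rcases hθ.ae_empty_or_univ_of_ae_le_preimage' hA.nullMeasurableSet hle
      (measure_ne_top P _) with h | h
    · exfalso
      have h3 : ∀ᵐ ω ∂P, ∃ k : ℕ, 1 ≤ k ∧ T k ω ≤ c' * k := by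
        have h4 : ∀ᵐ ω ∂P, ω ∉ {ω | c < liminf (fun n : ℕ => T n ω / n) atTop} := by
          rw [ae_eq_empty] at h
          exact measure_eq_zero_iff_ae_notMem.1 h
        filter_upwards [h4] with ω h5
        exact King_aux.exists_le (fun n => T n ω) c c' hc1 (not_lt.1 h5)
      exact absurd (low hθ.toMeasurePreserving T hm h0 hs h1 c' h3) (not_le.2 hc2)
    · filter_upwards [eventuallyEq_set.1 h] with ω h5
      exact h5.2 (Set.mem_univ ω)
  have hall : ∀ᵐ ω ∂P, ∀ q : ℚ, ((Real.toNNReal q : NNReal) : ℝ≥0∞) <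
      (⨅ (n : ℕ) (_ : 1 ≤ n), (∫⁻ ω, T n ω ∂P) / n) →
      ((Real.toNNReal q : NNReal) : ℝ≥0∞) < liminf (fun n : ℕ => T n ω / n) atTop := by
    rw [ae_all_iff]
    intro q
    by_cases hq : ((Real.toNNReal q : NNReal) : ℝ≥0∞) <
      (⨅ (n : ℕ) (_ : 1 ≤ n), (∫⁻ ω, T n ω ∂P) / n)
    · filter_upwards [key _ hq] with ω h _
      exact h
    · exact Eventually.of_forall fun ω h => absurd h hq
  filter_upwards [hall] with ω h
  by_contra hlt
  obtain ⟨q, _, hq1, hq2⟩ := ENNReal.lt_iff_exists_rat_btwn.1 (not_le.1 hlt)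
  exact absurd (h q hq2) (not_lt.2 hq1.le)

/-- Kingman's theorem, ergodic case, nonnegative. -/
theorem king {Ω : Type*} [MeasurableSpace Ω] {P : Measure Ω} [IsProbabilityMeasure P] {θ : Ω → Ω}
    (hθ : ∀ m : ℕ, 1 ≤ m → Ergodic (θ^[m]) P) (T : ℕ → Ω → ℝ≥0∞) (hm : ∀ n, Measurable (T n))
    (h0 : ∀ ω, T 0 ω = 0)
    (hs : ∀ j k ω, T (j + k) ω ≤ T j ω + T k (θ^[j] ω)) (h1 : ∫⁻ ω, T 1 ω ∂P ≠ ∞) :
    ∀ᵐ ω ∂P, Tendsto (fun n : ℕ => T n ω / n) atTop
      (𝓝 (⨅ (n : ℕ) (_ : 1 ≤ n), (∫⁻ ω, T n ω ∂P) / n)) := by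
  have hθ1 : Ergodic θ P := by simpa using hθ 1 le_rfl
  filter_upwards [king_up hθ T hm h0 hs h1, king_low hθ1 T hm h0 hs h1] with ω h h'
  exact tendsto_of_le_liminf_of_limsup_le h' h

end H949.FK
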