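import Mathlib
import Pool.Agent.H949.FH.Inv
import Pool.Agent.H949.FH.Line
import Pool.Agent.H949.FK.Exit

set_option autoImplicit false

open MeasureTheory ProbabilityTheory
open scoped ENNReal

namespace H949.FK

open H949.FH

namespace Mean_aux

/-- the walks to the right of `-6` are independent with law `walkLaw` -/
theorem law_seq : (law 1 (Measure.dirac 1)).map (fun ω (n : ℕ) => line_X (-6 + (n : ℤ)) ω) =
    H949.FG.sysLaw := by
  have h1 := line_system
  have h2 : iIndepFun (fun (n : ℕ) (ω : Config 1) => line_X (-6 + (n : ℤ)) ω)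
      (law 1 (Measure.dirac 1)) :=
    h1.indep.precomp (g := fun n : ℕ => (-6 : ℤ) + n) (fun a b h => by
      have h' : (-6 : ℤ) + a = -6 + b := h
      omega)
  have h3 := (iIndepFun_iff_map_fun_eq_infinitePi_map (fun n => h1.meas _)).1 h2
  rw [h3]
  unfold H949.FG.sysLaw
  congr 1
  funext n
  exact h1.law _

theorem meas_seq : Measurable (fun (ω : Config 1) (n : ℕ) => line_X (-6 + (n : ℤ)) ω) :=
  measurable_pi_lambda _ fun _ => line_system.meas _

theorem meas_Bk : Measurable fun w : ℕ → H949.FG.Walk => H949.FG.Bk w 0 := by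
  unfold H949.FG.Bk
  refine Measurable.iInf fun r => ?_
  exact (H949.FG.measurable_hit _).comp (measurable_pi_apply _)

theorem meas_exit : Measurable fun w : H949.FG.Walk =>
    min (H949.FG.hit w 1) (H949.FG.hit w (-6)) :=
  (H949.FG.measurable_hit 1).min (H949.FG.measurable_hit (-6))

theorem hit_neg {w : H949.FG.Walk} (hw : ∀ i, 0 ≤ (w i).1) {j k : ℤ} (hj : j ≤ 0) (hk : k ≤ j) :
    H949.FG.hit w j ≤ H949.FG.hit w k := by
  have h1 : ∀ i, 0 ≤ (H949.FG.mir w i).1 := hw
  have h2 := H949.FG.hit_mono h1 (j := -j) (k := -k) (by omega) (by omega)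
  rwa [H949.FG.hit_mir, H949.FG.hit_mir, neg_neg, neg_neg] at h2

/-- the deterministic bound -/
theorem bound {ω : Config 1} (hω : ∀ s, (ω s).1 = 1)
    (hpos : ∀ i, 0 ≤ (line_X 0 ω i).1) :
    passage ω 0 (ax 1 1) ≤ min (H949.FG.hit (line_X 0 ω) 1) (H949.FG.hit (line_X 0 ω) (-6)) +
      H949.FG.Bk (fun n : ℕ => line_X (-6 + (n : ℤ)) ω) 0 := by
  have h0 : ∀ k : ℤ, passage ω 0 (ax 1 k) ≤ H949.FG.hit (line_X 0 ω) k := by
    intro k
    refine (passage_le_reach ω 0 (ax 1 k)).trans (le_of_eq ?_)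
    rw [line_reach hω]
    simp [ax]
  have h1 : ∀ j : ℤ, passage ω (ax 1 j) (ax 1 1) ≤ H949.FG.hit (line_X j ω) (1 - j) := by
    intro j
    refine (passage_le_reach ω (ax 1 j) (ax 1 1)).trans (le_of_eq ?_)
    rw [line_reach hω]
    simp [ax]
  rcases le_total (H949.FG.hit (line_X 0 ω) 1) (H949.FG.hit (line_X 0 ω) (-6)) with h | h
  · rw [min_eq_left h]
    exact (h0 1).trans le_self_add
  · rw [min_eq_right h]
    unfold H949.FG.Bk
    rw [ENNReal.add_iInf]
    refine le_iInf fun r => ?_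
    have hr : (r : ℕ) < 4 := r.2
    have e1 : (-6 : ℤ) + ((4 * 0 + (r : ℕ) : ℕ) : ℤ) = -6 + (r : ℤ) := by push_cast; ring
    have e2 : (7 : ℤ) - ((r : ℕ) : ℤ) = 1 - (-6 + (r : ℤ)) := by ring
    refine (passage_tri ω 0 (ax 1 (-6 + (r : ℤ))) (ax 1 1)).trans ?_
    refine add_le_add ((h0 _).trans (hit_neg hpos (by omega) (by omega))) ?_
    refine (h1 _).trans (le_of_eq ?_)
    rw [e2]
    show H949.FG.hit (line_X (-6 + (r : ℤ)) ω) _ =
      H949.FG.hit (line_X (-6 + ((4 * 0 + (r : ℕ) : ℕ) : ℤ)) ω) _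
    rw [e1]

end Mean_aux

/-- The mean passage time from `0` to `1` is finite.

PROOF. Almost surely every site has exactly one particle (`line_full`) and all holding times are positive; let
`w_x = line_X x ω` be the walk of the particle of `x`; `line_system` says these walks are independent with law
`H949.FG.walkLaw`; `line_reach` translates `reach`. Let `τ = min (hit w_0 1) (hit w_0 (-6))` and
`m = ⨅ r : Fin 4, hit (w_{-6+r}) (7 - r)`. Claim: `passage ω 0 (ax 1 1) ≤ τ + m`. If `τ = hit w_0 1` then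
`passage ≤ reach (ω 0) (ax 1) = τ` (`passage_le_reach`). Otherwise `τ = hit w_0 (-6)` and, the walks being nearest neighbour,
`hit w_0 (-6+r) ≤ hit w_0 (-6)` for `r = 0, ..., 3` (`H949.FG.hit_mono` with the mirrored walk `H949.FG.mir`,
`H949.FG.hit_mir`), so `passage ω 0 (ax (-6+r)) ≤ τ`, and
`passage ω 0 (ax 1) ≤ passage ω 0 (ax (-6+r)) + reach (ω (ax (-6+r))) (ax (7-r)) ≤ τ + hit w_{-6+r} (7-r)` (`passage_tri`).
Integrate: `∫⁻ τ` is finite by `exit_mean` (the law of `w_0` is `walkLaw`); `∫⁻ m` is the integral of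
`H949.FG.Bk w 0` (which is `⨅ r : Fin 4, hit (w r) (7 - r)`) under `H949.FG.sysLaw`, since the four walks
`w_{-6}, ..., w_{-3}` are independent with law `walkLaw` like the first four coordinates of `sysLaw`; finite by
`H949.FG.lintegral_Bk` (in FG/MeanBk.lean). To compare the laws: the map `ω ↦ (fun n : ℕ => line_X (-6 + n) ω)` sends `law` to
`sysLaw` (a sequence of independent random variables with law `walkLaw`, `iIndepFun_iff_map_fun_eq_infinitePi_map` of Mathlib or
`Measure.eq_infinitePi`). -/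
theorem mean : ∫⁻ ω, passage ω 0 (ax 1 1) ∂(law 1 (Measure.dirac 1)) ≠ ∞ := by
  have hfull : ∀ᵐ ω ∂(law 1 (Measure.dirac 1)), ∀ s, (ω s).1 = 1 := ae_iff.2 line_full.2
  have hposT := law_posTime (d := 1) (Measure.dirac 1)
  have hle : ∀ᵐ ω ∂(law 1 (Measure.dirac 1)), passage ω 0 (ax 1 1) ≤
      min (H949.FG.hit (line_X 0 ω) 1) (H949.FG.hit (line_X 0 ω) (-6)) +
        H949.FG.Bk (fun n : ℕ => line_X (-6 + (n : ℤ)) ω) 0 := by
    filter_upwards [hfull, hposT] with ω h1 h2
    exact Mean_aux.bound h1 fun i => (h2 (fun _ => 0) 0 i).le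
  refine ne_top_of_le_ne_top ?_ (lintegral_mono_ae hle)
  have m1 : Measurable fun ω : Config 1 =>
      min (H949.FG.hit (line_X 0 ω) 1) (H949.FG.hit (line_X 0 ω) (-6)) :=
    Mean_aux.meas_exit.comp (line_system.meas 0)
  rw [lintegral_add_left m1]
  refine ENNReal.add_ne_top.2 ⟨?_, ?_⟩
  · have h := lintegral_map (μ := law 1 (Measure.dirac 1)) Mean_aux.meas_exit (line_system.meas 0)
    rw [line_system.law 0] at h
    rw [← h]
    exact exit_mean
  · have h := lintegral_map (μ := law 1 (Measure.dirac 1)) Mean_aux.meas_Bk Mean_aux.meas_seq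
    rw [Mean_aux.law_seq] at h
    rw [← h]
    exact H949.FG.lintegral_Bk

end H949.FK
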