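import Mathlib
import Pool.Agent.H949.FH.Defs
import Pool.Agent.H949.FH.Inv
import Pool.Graph.R_seed8.Y560.BE.Erg

set_option autoImplicit false

open MeasureTheory ProbabilityTheory
open scoped ENNReal

namespace H949.FK

open H949.FH

namespace Shift_aux

/-- The iterates of the translation. -/
theorem iter_add {d : ℕ} (v : Site d) (n : ℕ) (x : Site d) :
    (Equiv.addRight v)^[n] x = x + (n : ℤ) • v := by
  induction n with
  | zero => simp
  | succ n ih =>
    rw [Function.iterate_succ_apply', ih]
    show x + (n : ℤ) • v + v = _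
    rw [Nat.cast_succ, add_smul, one_smul, add_assoc]

end Shift_aux

/-- PROOF. `shift v` is the coordinate map `Pool.Agent.Y560.BE.cm σ` with `σ x = x + v` (an `Equiv`), `law` is
`Measure.infinitePi`; library: `Pool.Agent.Y560.BE.erg_cm` and `Pool.Agent.Y560.BE.move_off`
(see `Pool/Agent/H953/Spd/Erg.lean` on main, `erg_sg`, for an example of its use); `σ^[n+1] x ≠ x` because
`(n+1) v ≠ 0`. -/
theorem erg {d : ℕ} [NeZero d] (ν : Measure ℕ) [IsProbabilityMeasure ν] (v : Site d) (hv : v ≠ 0) :
    Ergodic (shift v : Config d → Config d) (law d ν) := by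
  classical
  refine Pool.Agent.Y560.BE.erg_cm (cellLaw d ν) (Equiv.addRight v)
    (Pool.Agent.Y560.BE.move_off _ fun x n h => hv ?_)
  rw [Shift_aux.iter_add] at h
  have h1 : ((n + 1 : ℕ) : ℤ) • v = 0 := add_eq_left.1 h
  rcases smul_eq_zero.1 h1 with h2 | h2
  · exfalso
    omega
  · exact h2

/-- PROOF. Induction on `m`. -/
theorem shift_iter {d : ℕ} (v : Site d) (m : ℕ) :
    (shift v : Config d → Config d)^[m] = shift ((m : ℤ) • v) := by
  induction m with
  | zero =>
    funext ω x
    show ω x = ω (x + ((0 : ℕ) : ℤ) • v)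
    rw [Nat.cast_zero, zero_smul, add_zero]
  | succ m ih =>
    rw [Function.iterate_succ, ih]
    funext ω x
    show ω (x + (m : ℤ) • v + v) = ω (x + ((m + 1 : ℕ) : ℤ) • v)
    rw [Nat.cast_succ, add_smul, one_smul, add_assoc]

end H949.FK
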