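import Mathlib
import Pool.Agent.H949.FH.Inv
import Pool.Agent.H949.FK.Bir
import Pool.Agent.H949.FK.Shift
import Pool.Agent.H949.FK.Burst
import Pool.Agent.H949.FK.Nodup
import Pool.Agent.H949.FK.Chain

set_option autoImplicit false

open MeasureTheory ProbabilityTheory Filter Topology
open scoped ENNReal

namespace H949.FK

open H949.FH

namespace Slow_aux

/-- Linear bounds for the sums from the limit of the averages. -/
lemma sum_bound {a : ℕ → ℝ≥0∞} {m : ℝ≥0∞} (hm : m < 1 / 2)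
    (h : Tendsto (fun n : ℕ => (∑ j ∈ Finset.range n, a j) / n) atTop (𝓝 m)) :
    ∃ C : ℝ≥0∞, C ≠ ∞ ∧ ∀ n : ℕ, 2 * ∑ j ∈ Finset.range n, a j ≤ n + C := by
  obtain ⟨n₀, h₀⟩ := eventually_atTop.1 (h.eventually (gt_mem_nhds hm))
  have h1 : ∀ n : ℕ, n₀ + 1 ≤ n → 2 * ∑ j ∈ Finset.range n, a j ≤ n := by
    intro n hn
    have h2 := (h₀ n (by omega)).le
    have hn0 : (n : ℝ≥0∞) ≠ 0 := by
      rw [Nat.cast_ne_zero]
      omega
    rw [ENNReal.div_le_iff hn0 (ENNReal.natCast_ne_top n)] at h2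
    calc 2 * ∑ j ∈ Finset.range n, a j ≤ 2 * (1 / 2 * (n : ℝ≥0∞)) := by gcongr
      _ = n := by
        rw [one_div, ← mul_assoc, ENNReal.mul_inv_cancel two_ne_zero (by norm_num), one_mul]
  refine ⟨((n₀ + 1 : ℕ) : ℝ≥0∞), ENNReal.natCast_ne_top _, fun n => ?_⟩
  rcases le_total (n₀ + 1) n with hn | hn
  · exact (h1 n hn).trans le_self_add
  · calc 2 * ∑ j ∈ Finset.range n, a j ≤ 2 * ∑ j ∈ Finset.range (n₀ + 1), a j := by
          gcongr
      _ ≤ ((n₀ + 1 : ℕ) : ℝ≥0∞) := h1 _ le_rfl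
      _ ≤ _ := le_add_self

lemma sum_Icc_le (g : ℤ → ℝ≥0∞) (L R : ℕ) :
    ∑ x ∈ Finset.Icc (-(L : ℤ)) R, g x ≤
      ∑ j ∈ Finset.range (R + 1), g (j : ℤ) + ∑ j ∈ Finset.range (L + 1), g (-(j : ℤ)) := by
  classical
  set A : Finset ℤ := (Finset.range (R + 1)).image (fun j : ℕ => (j : ℤ)) with hA
  set B : Finset ℤ := (Finset.range (L + 1)).image (fun j : ℕ => -(j : ℤ)) with hB
  have hsub : Finset.Icc (-(L : ℤ)) R ⊆ A ∪ B := by
    intro x hx
    rw [Finset.mem_Icc] at hx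
    rw [Finset.mem_union, hA, hB, Finset.mem_image, Finset.mem_image]
    rcases le_total 0 x with h | h
    · left
      exact ⟨x.toNat, by rw [Finset.mem_range]; omega, by omega⟩
    · right
      exact ⟨(-x).toNat, by rw [Finset.mem_range]; omega, by omega⟩
  calc ∑ x ∈ Finset.Icc (-(L : ℤ)) R, g x ≤ ∑ x ∈ A ∪ B, g x := Finset.sum_le_sum_of_subset hsub
    _ ≤ ∑ x ∈ A, g x + ∑ x ∈ B, g x := by
        rw [← Finset.sum_union_inter]
        exact le_self_add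
    _ = _ := by
        rw [hA, hB, Finset.sum_image, Finset.sum_image]
        · intro a _ b _ h
          simpa using h
        · intro a _ b _ h
          simpa using h

lemma smul_ax (j : ℕ) (e : ℤ) : ((j : ℤ) • ax 1 e : Site 1) = ax 1 (j * e) := by
  funext i
  rw [Subsingleton.elim i 0]
  simp [ax]

lemma ax_ne {e : ℤ} (he : e ≠ 0) : (ax 1 e : Site 1) ≠ 0 := by
  intro h
  have := congrFun h 0
  simp [ax] at this
  exact he this

lemma iter (ω : Config 1) (e : ℤ) (j : ℕ) :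
    ((shift (ax 1 e) : Config 1 → Config 1)^[j] ω) 0 = ω (ax 1 (j * e)) := by
  rw [shift_iter, smul_ax]
  unfold shift
  rw [zero_add]

/-- The bound for one chain. -/
lemma chain_bound {ω : Config 1} {C₁ C₂ : ℝ≥0∞}
    (h1 : ∀ n : ℕ, 2 * ∑ j ∈ Finset.range n, burst (ω (ax 1 (j : ℤ))) ≤ n + C₁)
    (h2 : ∀ n : ℕ, 2 * ∑ j ∈ Finset.range n, burst (ω (ax 1 (-(j : ℤ)))) ≤ n + C₂)
    (n : ℕ) (l : List (Site 1))
    (hl : ((0 : Site 1) :: l).getLast (List.cons_ne_nil 0 l) = ax 1 n) :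
    (n : ℝ≥0∞) ≤ 40 * along ω 0 l + (2 + C₁ + C₂) := by
  obtain ⟨l', hnd, hlast, hle⟩ := exists_nodup ω 0 (ax 1 n) l hl
  obtain ⟨L, R, hR, hLR⟩ := chain_low ω n l' hnd hlast
  have h3 := sum_Icc_le (fun x => burst (ω (ax 1 x))) L R
  have h4 := h1 (R + 1)
  have h5 := h2 (L + 1)
  set X := ((L + R : ℕ) : ℝ≥0∞) with hX
  have hXt : X ≠ ∞ := ENNReal.natCast_ne_top _
  have h6 : X + X ≤ X + (40 * along ω 0 l + (2 + C₁ + C₂)) := by
    calc X + X = 2 * X := (two_mul X).symm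
      _ ≤ 2 * (20 * along ω 0 l' + ∑ x ∈ Finset.Icc (-(L : ℤ)) R, burst (ω (ax 1 x))) := by
          gcongr
      _ ≤ 2 * (20 * along ω 0 l + (∑ j ∈ Finset.range (R + 1), burst (ω (ax 1 (j : ℤ))) +
            ∑ j ∈ Finset.range (L + 1), burst (ω (ax 1 (-(j : ℤ)))))) := by
          gcongr
      _ = 40 * along ω 0 l + (2 * ∑ j ∈ Finset.range (R + 1), burst (ω (ax 1 (j : ℤ))) +
            2 * ∑ j ∈ Finset.range (L + 1), burst (ω (ax 1 (-(j : ℤ))))) := by ring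
      _ ≤ 40 * along ω 0 l + ((((R + 1 : ℕ) : ℝ≥0∞) + C₁) + (((L + 1 : ℕ) : ℝ≥0∞) + C₂)) := by
          gcongr
      _ = X + (40 * along ω 0 l + (2 + C₁ + C₂)) := by
          rw [hX]
          push_cast
          ring
  have h7 : X ≤ 40 * along ω 0 l + (2 + C₁ + C₂) := by
    rwa [ENNReal.add_le_add_iff_left hXt] at h6
  refine le_trans ?_ h7
  rw [hX, Nat.cast_le]
  omega

end Slow_aux

open Slow_aux in
/-- The passage times to the right grow at least linearly. -/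
theorem slow : ∀ᵐ ω ∂(law 1 (Measure.dirac 1)), ∃ C : ℝ≥0∞, C ≠ ∞ ∧ ∀ n : ℕ,
    (n : ℝ≥0∞) ≤ 40 * passage ω 0 (ax 1 n) + C := by
  have hf : Measurable (fun ω : Config 1 => burst (ω 0)) :=
    burst_meas.comp (measurable_pi_apply 0)
  have hi : ∫⁻ ω, burst (ω 0) ∂(law 1 (Measure.dirac 1)) < 1 / 2 := by
    have e1 : MeasurePreserving (Function.eval (0 : Site 1) : Config 1 → Cell 1)
        (law 1 (Measure.dirac 1)) (cellLaw 1 (Measure.dirac 1)) :=
      measurePreserving_eval_infinitePi (fun _ : Site 1 => cellLaw 1 (Measure.dirac 1)) 0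
    have h2 := e1.lintegral_comp burst_meas
    have h3 := burst_mean
    rw [← h2] at h3
    exact h3
  have hit : ∫⁻ ω, burst (ω 0) ∂(law 1 (Measure.dirac 1)) ≠ ∞ := (lt_top_of_lt hi).ne
  have b1 := bir (erg (Measure.dirac 1) (ax 1 1) (ax_ne one_ne_zero)) hf hit
  have b2 := bir (erg (Measure.dirac 1) (ax 1 (-1)) (ax_ne (by norm_num))) hf hit
  filter_upwards [b1, b2] with ω w1 w2
  obtain ⟨C₁, hC₁, h1⟩ := sum_bound hi w1
  obtain ⟨C₂, hC₂, h2⟩ := sum_bound hi w2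
  have h1' : ∀ n : ℕ, 2 * ∑ j ∈ Finset.range n, burst (ω (ax 1 (j : ℤ))) ≤ n + C₁ := by
    intro n
    have := h1 n
    simp only [iter, mul_one] at this
    exact this
  have h2' : ∀ n : ℕ, 2 * ∑ j ∈ Finset.range n, burst (ω (ax 1 (-(j : ℤ)))) ≤ n + C₂ := by
    intro n
    have := h2 n
    simp only [iter, mul_neg, mul_one] at this
    exact this
  refine ⟨2 + C₁ + C₂, ?_, fun n => ?_⟩
  · exact ENNReal.add_ne_top.2 ⟨ENNReal.add_ne_top.2 ⟨by norm_num, hC₁⟩, hC₂⟩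
  · have h3 : ((n : ℝ≥0∞) - (2 + C₁ + C₂)) / 40 ≤ passage ω 0 (ax 1 n) := by
      unfold passage
      refine le_iInf₂ fun l hl => ?_
      rw [ENNReal.div_le_iff' (by norm_num) (by norm_num), tsub_le_iff_right]
      exact chain_bound h1' h2' n l hl
    rwa [ENNReal.div_le_iff' (by norm_num) (by norm_num), tsub_le_iff_right] at h3

end H949.FK
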