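import Mathlib
import Pool.Agent.H949.FH.Inv
import Pool.Agent.H949.FH.Refl
import Pool.Agent.H949.FK.King
import Pool.Agent.H949.FK.Shift
import Pool.Agent.H949.FK.Mean
import Pool.Agent.H949.FK.Slow
import Pool.Agent.H949.FK.Det

set_option autoImplicit false

open MeasureTheory ProbabilityTheory Filter Topology
open scoped ENNReal Pointwise

namespace H949.FK

open H949.FH

namespace Final_aux

theorem ax_add (j k : ℤ) : ax 1 (j + k) = ax 1 k + ax 1 j := by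
  unfold ax
  rw [add_comm, Pi.single_add]

theorem ax_zero : ax 1 0 = 0 := by
  unfold ax
  exact Pi.single_zero 0

theorem smul_ax (j : ℤ) : j • ax 1 1 = ax 1 j := by
  unfold ax
  rw [← Pi.single_smul]
  simp

theorem ax_ne {j : ℤ} (hj : j ≠ 0) : ax 1 j ≠ 0 := by
  intro h
  have h1 := congrFun h 0
  unfold ax at h1
  rw [Pi.single_eq_same] at h1
  exact hj h1

/-- the iterates of the shift -/
theorem iter (j : ℕ) : (shift (ax 1 1) : Config 1 → Config 1)^[j] = shift (ax 1 (j : ℤ)) := by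
  rw [shift_iter, smul_ax]

theorem subadd (ω : Config 1) (j k : ℕ) :
    passage ω 0 (ax 1 ((j + k : ℕ) : ℤ)) ≤ passage ω 0 (ax 1 (j : ℤ)) +
      passage ((shift (ax 1 1) : Config 1 → Config 1)^[j] ω) 0 (ax 1 (k : ℤ)) := by
  rw [iter, passage_shift, zero_add, ← ax_add, ← Nat.cast_add]
  exact passage_tri ω 0 (ax 1 (j : ℤ)) (ax 1 ((j + k : ℕ) : ℤ))

/-- finiteness -/
theorem fin : ∀ᵐ ω ∂(law 1 (Measure.dirac 1)), ∀ n : ℕ, passage ω 0 (ax 1 (n : ℤ)) ≠ ∞ := by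
  have h1 : ∀ᵐ ω ∂(law 1 (Measure.dirac 1)), passage ω 0 (ax 1 1) < ∞ :=
    ae_lt_top (measurable_passage 0 (ax 1 1)) mean
  have h2 : ∀ j : ℕ, ∀ᵐ ω ∂(law 1 (Measure.dirac 1)),
      passage ((shift (ax 1 1) : Config 1 → Config 1)^[j] ω) 0 (ax 1 1) < ∞ := by
    intro j
    have h3 : MeasurePreserving ((shift (ax 1 1) : Config 1 → Config 1)^[j])
        (law 1 (Measure.dirac 1)) (law 1 (Measure.dirac 1)) := by
      rw [iter]
      exact law_shift _ _
    exact h3.quasiMeasurePreserving.ae h1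
  filter_upwards [ae_all_iff.2 h2] with ω hω n
  induction n with
  | zero =>
    rw [Nat.cast_zero, ax_zero, passage_self]
    exact ENNReal.zero_ne_top
  | succ n ih =>
    have h3 := subadd ω n 1
    rw [Nat.cast_one] at h3
    exact ne_top_of_le_ne_top (ENNReal.add_ne_top.2 ⟨ih, (hω n).ne⟩) h3

/-- positivity of the limit -/
theorem pos_lim {T : ℕ → ℝ≥0∞} {γ C : ℝ≥0∞} (hC : C ≠ ∞) (h : ∀ n : ℕ, (n : ℝ≥0∞) ≤ 40 * T n + C)
    (hT : Tendsto (fun n : ℕ => T n / n) atTop (𝓝 γ)) : γ ≠ 0 := by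
  have h1 : Tendsto (fun n : ℕ => 40 * (T n / n) + C * (n : ℝ≥0∞)⁻¹) atTop (𝓝 (40 * γ + C * 0)) :=
    (ENNReal.Tendsto.const_mul hT (Or.inr (by norm_num))).add
      (ENNReal.Tendsto.const_mul ENNReal.tendsto_inv_nat_nhds_zero (Or.inr hC))
  have h2 : ∀ᶠ n : ℕ in atTop, (1 : ℝ≥0∞) ≤ 40 * (T n / n) + C * (n : ℝ≥0∞)⁻¹ := by
    filter_upwards [eventually_ge_atTop 1] with n hn
    have hn0 : (n : ℝ≥0∞) ≠ 0 := by
      rw [Nat.cast_ne_zero]
      omega
    have h3 : (n : ℝ≥0∞) * (n : ℝ≥0∞)⁻¹ ≤ (40 * T n + C) * (n : ℝ≥0∞)⁻¹ :=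
      mul_le_mul_left (h n) _
    rw [ENNReal.mul_inv_cancel hn0 (ENNReal.natCast_ne_top n), add_mul, mul_assoc,
      ← div_eq_mul_inv (T n)] at h3
    exact h3
  have h3 := ge_of_tendsto h1 h2
  intro h0
  rw [h0, mul_zero, mul_zero, add_zero] at h3
  exact absurd h3 (by norm_num)

end Final_aux

open Final_aux in
/-- Linear growth of the passage times to the right.

PROOF. `king` with `θ = shift (ax 1 1)`, `T n ω = passage ω 0 (ax 1 n)`: `θ^[m] = shift (ax 1 m)` (`shift_iter`) is ergodic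
(`erg`), `passage_self`, `passage_tri` and `passage_shift` give `h0`, `hs`, and `mean` gives `h1`. The limit `γ` is finite
(`γ ≤ ∫⁻ T 1`), and positive by `slow`: `n ≤ 40 T n + C` divided by `n` gives `1 ≤ 40 γ`. Finally `passage ω 0 (ax 1 n)` is finite for all
`n` almost surely: `≤ ∑_{j<n} passage (shift (ax 1 j) ω) 0 (ax 1 1)`, each of finite mean. -/
theorem right_lim : ∃ μ : ℝ, 0 < μ ∧ ∀ᵐ ω ∂(law 1 (Measure.dirac 1)),
    Tendsto (fun n : ℕ => passage ω 0 (ax 1 n) / n) atTop (𝓝 (ENNReal.ofReal μ)) ∧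
      ∀ n : ℕ, passage ω 0 (ax 1 n) ≠ ∞ := by
  have hθ : ∀ m : ℕ, 1 ≤ m →
      Ergodic ((shift (ax 1 1) : Config 1 → Config 1)^[m]) (law 1 (Measure.dirac 1)) := by
    intro m hm
    rw [iter]
    exact erg _ _ (ax_ne (by omega))
  have h1 : ∫⁻ ω, passage ω 0 (ax 1 ((1 : ℕ) : ℤ)) ∂(law 1 (Measure.dirac 1)) ≠ ∞ := by
    rw [Nat.cast_one]
    exact mean
  have hk := king hθ (fun (n : ℕ) (ω : Config 1) => passage ω 0 (ax 1 (n : ℤ)))
    (fun n => measurable_passage 0 (ax 1 (n : ℤ)))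
    (fun ω => by
      show passage ω 0 (ax 1 ((0 : ℕ) : ℤ)) = 0
      rw [Nat.cast_zero, ax_zero, passage_self])
    (fun j k ω => subadd ω j k) h1
  set γ : ℝ≥0∞ := ⨅ (n : ℕ) (_ : 1 ≤ n),
    (∫⁻ ω, passage ω 0 (ax 1 (n : ℤ)) ∂(law 1 (Measure.dirac 1))) / n with hγ
  have hγt : γ ≠ ∞ := by
    have h2 : γ ≤ (∫⁻ ω, passage ω 0 (ax 1 ((1 : ℕ) : ℤ)) ∂(law 1 (Measure.dirac 1))) / ((1 : ℕ) : ℝ≥0∞) :=
      iInf₂_le 1 le_rfl
    rw [Nat.cast_one (R := ℝ≥0∞), div_one] at h2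
    exact ne_top_of_le_ne_top h1 h2
  have hγ0 : γ ≠ 0 := by
    obtain ⟨ω, hω, C, hC, h⟩ := (hk.and slow).exists
    exact pos_lim hC h hω
  refine ⟨γ.toReal, ENNReal.toReal_pos hγ0 hγt, ?_⟩
  rw [ENNReal.ofReal_toReal hγt]
  filter_upwards [hk, fin] with ω h h'
  exact ⟨h, h'⟩

namespace Final_aux

theorem neg_ax (n : ℤ) : -ax 1 n = ax 1 (-n) := by
  unfold ax
  rw [Pi.single_neg]

theorem eq_ax (y : Site 1) : y = ax 1 (y 0) := by
  unfold ax
  funext i
  fin_cases i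
  simp

theorem pass_refl (ω : Config 1) (n : ℕ) :
    passage (refl ω) 0 (ax 1 n) = passage ω 0 (ax 1 (-n)) := by
  rw [passage_refl, neg_zero, neg_ax]

theorem set_eq (v : ℝ) (hv : 0 ≤ v) :
    {r : Fin 1 → ℝ | |r 0| ≤ v} = Metric.closedBall (0 : Fin 1 → ℝ) v := by
  ext r
  rw [mem_closedBall_zero_iff, pi_norm_le_iff_of_nonneg hv]
  constructor
  · intro hr i
    fin_cases i
    exact hr
  · intro hr
    exact hr 0

theorem fin_all {ω : Config 1} (h1 : ∀ n : ℕ, passage ω 0 (ax 1 n) ≠ ∞)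
    (h2 : ∀ n : ℕ, passage ω 0 (ax 1 (-n)) ≠ ∞) (y : Site 1) : passage ω 0 y ≠ ∞ := by
  rw [eq_ax y]
  rcases Int.eq_nat_or_neg (y 0) with ⟨n, hn | hn⟩
  · rw [hn]
    exact h1 n
  · rw [hn]
    exact h2 n

end Final_aux

/-- The shape theorem on the line with one particle per site.

PROOF. `right_lim`, and its image under the reflection (`law_refl` measure preserving, `passage_refl`:
`passage (refl ω) 0 (ax 1 n) = passage ω 0 (ax 1 (-n))`), then `shape_of` with the set `{r | |r 0| ≤ 1/μ}`, which is bounded, convex,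
with nonempty interior. Every site is `ax 1 n` or `ax 1 (-n)`. -/
theorem bounded_shape : BoundedShape 1 (Measure.dirac 1) := by
  obtain ⟨μ, hμ, h⟩ := right_lim
  have h' := (law_refl (d := 1) (Measure.dirac 1)).quasiMeasurePreserving.ae h
  have hv : 0 < 1 / μ := by positivity
  refine ⟨{r : Fin 1 → ℝ | |r 0| ≤ 1 / μ}, ?_, ?_, ?_, ?_⟩
  · rw [Final_aux.set_eq _ hv.le]
    exact Metric.isBounded_closedBall
  · rw [Final_aux.set_eq _ hv.le]
    exact convex_closedBall 0 _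
  · rw [Final_aux.set_eq _ hv.le]
    exact (Metric.nonempty_ball.2 hv).mono Metric.ball_subset_interior_closedBall
  · filter_upwards [h, h'] with ω h1 h2 _
    have h3 : Tendsto (fun n : ℕ => passage ω 0 (ax 1 (-n)) / n) atTop
        (𝓝 (ENNReal.ofReal μ)) := by
      refine h2.1.congr fun n => ?_
      rw [Final_aux.pass_refl]
    refine shape_of ω μ hμ h1.1 h3 (Final_aux.fin_all h1.2 fun n => ?_)
    rw [← Final_aux.pass_refl]
    exact h2.2 n

end H949.FK
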